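import Mathlib
import Pool.Agent.H33.G.R_seed8.H319R2.Sup689

set_option autoImplicit false

/-!
The key inequality for `p log (9/8) + q log (8/6)`.
-/

namespace Pool.Agent.H319R2

open Polynomial Finset MeasureTheory intervalIntegral

theorem int_dvd_lcm {N : ℕ} {z : ℤ} (hz : z ≠ 0) (h : z.natAbs ≤ N) :
    z ∣ (Nat.lcmUpto N : ℤ) := by
  rw [← Int.natAbs_dvd, Int.natCast_dvd_natCast]
  unfold Nat.lcmUpto
  have hm : z.natAbs ∈ Icc 1 N := by
    rw [mem_Icc]
    exact ⟨Int.natAbs_pos.2 hz, h⟩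
  exact dvd_lcm (f := id) hm

theorem key (m : ℕ) (p q : ℤ) (hp : 0 < p) (hq : q < 0) :
    (1 : ℝ) ≤ Nat.lcmUpto (6 * m + 2) *
      (2 * ((p : ℝ) - q) * (1 / 3200) ^ m +
        12 ^ (6 * m + 1) * 14 ^ (3 * m + 1) * 15 ^ (2 * m) / 6 ^ (5 * m) *
          |(p : ℝ) * Real.log (9 / 8) + q * Real.log (8 / 6)|) := by
  set Λ : ℝ := (p : ℝ) * Real.log (9 / 8) + q * Real.log (8 / 6) with hΛ
  -- choice of the parities
  obtain ⟨e2, he2, hb⟩ : ∃ e2 : ℕ, e2 ≤ 1 ∧ (3 * m + e2) % 2 = 1 := by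
    rcases Nat.mod_two_eq_zero_or_one m with h | h
    · exact ⟨1, le_rfl, by omega⟩
    · exact ⟨0, by omega, by omega⟩
  obtain ⟨e1, he1, ha⟩ : ∃ e1 : ℕ, e1 ≤ 1 ∧
      ((0 ≤ Λ → (6 * m + e1 + 5 * m) % 2 = 0) ∧ (Λ < 0 → (6 * m + e1 + 5 * m) % 2 = 1)) := by
    rcases le_or_gt 0 Λ with hL | hL
    · rcases Nat.mod_two_eq_zero_or_one m with h | h
      · exact ⟨0, by omega, fun _ => by omega, fun h' => absurd hL (not_le.2 h')⟩
      · exact ⟨1, by omega, fun _ => by omega, fun h' => absurd hL (not_le.2 h')⟩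
    · rcases Nat.mod_two_eq_zero_or_one m with h | h
      · exact ⟨1, by omega, fun h' => absurd hL (not_lt.2 h'), fun _ => by omega⟩
      · exact ⟨0, by omega, fun h' => absurd hL (not_lt.2 h'), fun _ => by omega⟩
  set a := 6 * m + e1 with hadef
  set b := 3 * m + e2 with hbdef
  set c := 2 * m with hcdef
  set n := 5 * m with hndef
  set D : ℕ := Nat.lcmUpto (6 * m + 2) with hD
  have hDpos : 0 < D := Nat.lcmUpto_pos _
  have hDr : (0 : ℝ) < D := by exact_mod_cast hDpos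
  set F := FF a b c with hF
  have hdeg : F.natDegree = a + b + c := FF_natDegree a b c
  have hn : n ≤ F.natDegree := by rw [hdeg]; omega
  set A : ℝ := (F.coeff n : ℝ) with hA
  set J1 : ℝ := ∫ x in (8:ℝ)..9, fI a b c n x with hJ1
  set J2 : ℝ := ∫ x in (6:ℝ)..8, fI a b c n x with hJ2
  have f1 : J1 = A * Real.log (9 / 8) + (ratPart F n 9 - ratPart F n 8) :=
    integral_formula F n hn (by norm_num) (by norm_num)
  have f2 : J2 = A * Real.log (8 / 6) + (ratPart F n 8 - ratPart F n 6) :=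
    integral_formula F n hn (by norm_num) (by norm_num)
  -- integrality
  have hDdvd : ∀ j : ℕ, j ≤ F.natDegree → j ≠ n → ((j : ℤ) - n) ∣ (D : ℤ) := by
    intro j hj hjn
    apply int_dvd_lcm
    · omega
    · rw [hdeg] at hj
      omega
  obtain ⟨z9, hz9⟩ := ratPart_int F n 9 (by norm_num) D
    (fun j _ => dvd9 a b c n (by omega) j) hDdvd
  obtain ⟨z8, hz8⟩ := ratPart_int F n 8 (by norm_num) D
    (fun j _ => dvd8 a b c n (by omega) j) hDdvd
  obtain ⟨z6, hz6⟩ := ratPart_int F n 6 (by norm_num) D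
    (fun j _ => dvd6 a b c n (by omega) (by omega) j) hDdvd
  push_cast at hz9 hz8 hz6
  -- signs
  have hc1 : ((-1 : ℝ)) ^ c = 1 := by rw [hcdef, pow_mul]; norm_num
  have hb1 : ((-1 : ℝ)) ^ b = -1 := by
    rw [← Nat.div_add_mod b 2, hb, pow_add, pow_mul]; norm_num
  have s1 : 0 < J1 := by
    have := J1_sign a b c n
    rw [hc1, one_mul] at this
    exact this
  have s2 : J2 < 0 := by
    have := J2_sign a b c n
    rw [pow_add, hc1, hb1] at this
    linarith
  have sA : 0 ≤ -(A * Λ) := by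
    have h := FF_coeff_sign a b c n
    rw [show a + b + c + n = (a + n) + b + c by ring, pow_add, pow_add, hc1, hb1] at h
    rcases le_or_gt 0 Λ with hL | hL
    · have he : ((-1 : ℝ)) ^ (a + n) = 1 := by
        have := ha.1 hL
        rw [← Nat.div_add_mod (a + n) 2, this, pow_add, pow_mul]; norm_num
      rw [he] at h
      have hA0 : 0 ≤ -A := by rw [hA]; linarith
      nlinarith
    · have he : ((-1 : ℝ)) ^ (a + n) = -1 := by
        have := ha.2 hL
        rw [← Nat.div_add_mod (a + n) 2, this, pow_add, pow_mul]; norm_num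
      rw [he] at h
      have hA0 : 0 ≤ A := by rw [hA]; linarith
      nlinarith
  have hpr : (0 : ℝ) < p := by exact_mod_cast hp
  have hqr : (q : ℝ) < 0 := by exact_mod_cast hq
  have hR : 0 < p * J1 + q * J2 - A * Λ := by
    have h1 : 0 < p * J1 := mul_pos hpr s1
    have h2 : 0 < q * J2 := mul_pos_of_neg_of_neg hqr s2
    linarith
  have hRint : (D : ℝ) * (p * J1 + q * J2 - A * Λ) = ((p * (z9 - z8) + q * (z8 - z6) : ℤ) : ℝ) := by
    push_cast
    rw [← hz9, ← hz8, ← hz6, f1, f2, hΛ]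
    ring
  have hge : (1 : ℝ) ≤ (D : ℝ) * (p * J1 + q * J2 - A * Λ) := by
    have h0 : (0 : ℝ) < (D : ℝ) * (p * J1 + q * J2 - A * Λ) := mul_pos hDr hR
    rw [hRint] at h0 ⊢
    have h1 : 0 < (p * (z9 - z8) + q * (z8 - z6) : ℤ) := by exact_mod_cast h0
    have h2 : 1 ≤ (p * (z9 - z8) + q * (z8 - z6) : ℤ) := h1
    exact_mod_cast h2
  refine hge.trans (mul_le_mul_of_nonneg_left ?_ hDr.le)
  -- upper bound
  have b1 : |J1| ≤ (1 / 3200) ^ m * (9 - 8) := J_abs m e1 e2 he1 he2 (by norm_num) (by norm_num) (by norm_num)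
  have b2 : |J2| ≤ (1 / 3200) ^ m * (8 - 6) := J_abs m e1 e2 he1 he2 (by norm_num) (by norm_num) (by norm_num)
  have hpw : (0 : ℝ) < (1 / 3200) ^ m := by positivity
  have u1 : p * J1 ≤ 2 * p * (1 / 3200) ^ m := by
    have : J1 ≤ (1 / 3200) ^ m * (9 - 8) := (le_abs_self _).trans b1
    nlinarith
  have u2 : q * J2 ≤ 2 * (-q) * (1 / 3200) ^ m := by
    have : -J2 ≤ (1 / 3200) ^ m * (8 - 6) := (neg_le_abs _).trans b2
    nlinarith
  have u3 : -(A * Λ) ≤ 12 ^ (6 * m + 1) * 14 ^ (3 * m + 1) * 15 ^ (2 * m) / 6 ^ (5 * m) * |Λ| := by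
    have h1 : -(A * Λ) ≤ |A| * |Λ| := by rw [← abs_mul]; exact neg_le_abs _
    refine h1.trans (mul_le_mul_of_nonneg_right ?_ (abs_nonneg _))
    have h2 := FF_coeff_bound a b c n (ρ := 6) (by norm_num)
    norm_num at h2
    refine h2.trans ?_
    apply div_le_div_of_nonneg_right _ (by positivity)
    apply mul_le_mul_of_nonneg_right _ (by positivity)
    apply mul_le_mul
    · exact pow_le_pow_right₀ (by norm_num) (by omega)
    · exact pow_le_pow_right₀ (by norm_num) (by omega)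
    · positivity
    · positivity
  linarith

end Pool.Agent.H319R2
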