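import Mathlib

set_option autoImplicit false

/-!
Basic facts on the map `T x = x/2` (`x` even), `(3x+1)/2` (`x` odd) on the integers.
-/

namespace Pool.Agent.H319R2

open Finset

/-- The 3x+1 map on the integers. -/
def T (x : ℤ) : ℤ := if x % 2 = 0 then x / 2 else (3 * x + 1) / 2

/-- number of odd terms among the first `k` terms of the orbit of `x` -/
def od (k : ℕ) (x : ℤ) : ℕ := ((range k).filter fun i => (T^[i] x) % 2 = 1).card

theorem T_even {x : ℤ} (h : x % 2 = 0) : 2 * T x = x := by
  unfold T; rw [if_pos h]; omega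

theorem T_odd {x : ℤ} (h : x % 2 = 1) : 2 * T x = 3 * x + 1 := by
  unfold T; rw [if_neg (by omega)]; omega

theorem par (x : ℤ) : x % 2 = 0 ∨ x % 2 = 1 := by omega

theorem od_zero (x : ℤ) : od 0 x = 0 := by simp [od]

theorem od_succ_even {k : ℕ} {x : ℤ} (h : (T^[k] x) % 2 = 0) : od (k + 1) x = od k x := by
  unfold od
  rw [range_add_one, filter_insert, if_neg (by omega)]

theorem od_succ_odd {k : ℕ} {x : ℤ} (h : (T^[k] x) % 2 = 1) : od (k + 1) x = od k x + 1 := by
  unfold od
  rw [range_add_one, filter_insert, if_pos h, card_insert_of_notMem]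
  simp

theorem od_le (k : ℕ) (x : ℤ) : od k x ≤ k := by
  unfold od
  exact (card_filter_le _ _).trans (by simp)

/-- size of the iterates, upper side -/
theorem lt_pow (k : ℕ) : ∀ (x c : ℤ), x < 2 ^ k * c → T^[k] x < 3 ^ (od k x) * c := by
  induction k with
  | zero => intro x c h; simpa [od] using h
  | succ k ih =>
    intro x c h
    have h1 := ih x (2 * c) (by rw [pow_succ] at h; linarith)
    rw [Function.iterate_succ_apply']
    have e : (3 : ℤ) ^ od k x * (2 * c) = 2 * (3 ^ od k x * c) := by ring
    rcases par (T^[k] x) with h' | h'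
    · have a1 := T_even h'
      rw [od_succ_even h']
      omega
    · have a1 := T_odd h'
      rw [od_succ_odd h', pow_succ]
      have : (3 : ℤ) ^ od k x * 3 * c = 3 * (3 ^ od k x * c) := by ring
      omega

/-- size of the iterates, lower side -/
theorem neg_pow_lt (k : ℕ) : ∀ (x c : ℤ), -(2 ^ k * c) < x → -(3 ^ (od k x) * c) < T^[k] x := by
  induction k with
  | zero => intro x c h; simpa [od] using h
  | succ k ih =>
    intro x c h
    have h1 := ih x (2 * c) (by rw [pow_succ] at h; linarith)
    rw [Function.iterate_succ_apply']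
    have e : (3 : ℤ) ^ od k x * (2 * c) = 2 * (3 ^ od k x * c) := by ring
    rcases par (T^[k] x) with h' | h'
    · have a1 := T_even h'
      rw [od_succ_even h']
      omega
    · have a1 := T_odd h'
      rw [od_succ_odd h', pow_succ]
      have : (3 : ℤ) ^ od k x * 3 * c = 3 * (3 ^ od k x * c) := by ring
      omega

theorem abs_iter_lt {k : ℕ} {x : ℤ} (h : |x| < 2 ^ k) : |T^[k] x| < 3 ^ (od k x) := by
  rw [abs_lt] at h ⊢
  have h1 := lt_pow k x 1 (by linarith [h.2])
  have h2 := neg_pow_lt k x 1 (by linarith [h.1])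
  constructor <;> linarith

/-- two integers with the same first `k` parities are congruent modulo `2 ^ k` -/
theorem same_par (k : ℕ) : ∀ (x y : ℤ), (∀ i < k, (T^[i] x) % 2 = (T^[i] y) % 2) →
    (2 : ℤ) ^ k ∣ x - y := by
  induction k with
  | zero => intro x y _; simp
  | succ k ih =>
    intro x y h
    have h0 : x % 2 = y % 2 := by simpa using h 0 (by omega)
    have h1 := ih (T x) (T y) (fun i hi => by
      have := h (i + 1) (by omega)
      simpa [Function.iterate_succ_apply] using this)
    obtain ⟨c, hc⟩ := h1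
    rcases par x with hx | hx
    · have a1 := T_even hx
      have a2 := T_even (h0 ▸ hx)
      refine ⟨c, ?_⟩
      rw [pow_succ]
      linear_combination (-1 : ℤ) * a1 + a2 + 2 * hc
    · have a1 := T_odd hx
      have a2 := T_odd (h0 ▸ hx)
      have h3 : (2 : ℤ) ^ (k + 1) ∣ 3 * (x - y) := ⟨c, by
        rw [pow_succ]; linear_combination (-1 : ℤ) * a1 + a2 + 2 * hc⟩
      have hcop : IsCoprime ((2 : ℤ) ^ (k + 1)) 3 := by
        apply IsCoprime.pow_left
        exact ⟨-1, 1, by norm_num⟩
      exact hcop.dvd_of_dvd_mul_left h3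

end Pool.Agent.H319R2
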