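import Mathlib
import Pool.Agent.H33.G.R_seed8.H319R2.Basic
import Pool.Agent.H33.G.R_seed8.H319R2.Measure

set_option autoImplicit false

/-!
Cycles of the 3x+1 map on the integers: the least element is polynomially bounded in the period.
-/

namespace Pool.Agent.H319R2

open Finset

theorem T_ne_zero {x : ℤ} (hx : x ≠ 0) : T x ≠ 0 := by
  rcases par x with h | h
  · have := T_even h; omega
  · have := T_odd h; omega

theorem iter_ne_zero {x : ℤ} (hx : x ≠ 0) (k : ℕ) : T^[k] x ≠ 0 := by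
  induction k with
  | zero => simpa using hx
  | succ k ih => rw [Function.iterate_succ_apply']; exact T_ne_zero ih

/-- growth of the iterates -/
theorem growth (t : ℕ) (y : ℤ) : (|((T^[t] y : ℤ) : ℝ)| + 1) ≤ (3 / 2) ^ (od t y) * (|(y : ℝ)| + 1) := by
  induction t with
  | zero => simp [od]
  | succ t ih =>
    rw [Function.iterate_succ_apply']
    set z := T^[t] y with hz
    rcases par z with h | h
    · rw [od_succ_even h]
      refine le_trans ?_ ih
      have h1 := T_even h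
      have h2 : (2 : ℝ) * ((T z : ℤ) : ℝ) = (z : ℝ) := by exact_mod_cast h1
      rw [← h2, abs_mul]
      have := abs_nonneg ((T z : ℤ) : ℝ)
      norm_num
      linarith
    · rw [od_succ_odd h, pow_succ]
      have h1 := T_odd h
      have h2 : (2 : ℝ) * ((T z : ℤ) : ℝ) = 3 * (z : ℝ) + 1 := by exact_mod_cast h1
      have h3 : 2 * |((T z : ℤ) : ℝ)| ≤ 3 * |(z : ℝ)| + 1 := by
        have : |(2 : ℝ) * ((T z : ℤ) : ℝ)| ≤ |3 * (z : ℝ)| + |(1 : ℝ)| := by
          rw [h2]; exact abs_add_le _ _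
        rw [abs_mul, abs_mul] at this
        norm_num at this
        exact this
      nlinarith

theorem log_step {y : ℤ} {N : ℝ} (hN : 1 ≤ N) (hy : N ≤ |(y : ℝ)|) :
    |Real.log |3 * (y : ℝ) + 1| - Real.log |(y : ℝ)| - Real.log 3| ≤ 1 / (2 * N) := by
  have hy0 : 0 < |(y : ℝ)| := by linarith
  have hyne : (y : ℝ) ≠ 0 := abs_pos.1 hy0
  have hlow : 3 * |(y : ℝ)| - 1 ≤ |3 * (y : ℝ) + 1| := by
    have := abs_sub_abs_le_abs_sub (3 * (y : ℝ)) (-1)
    rw [abs_mul, abs_neg, abs_one, sub_neg_eq_add] at this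
    norm_num at this
    linarith
  have hup : |3 * (y : ℝ) + 1| ≤ 3 * |(y : ℝ)| + 1 := by
    refine (abs_add_le _ _).trans ?_
    rw [abs_mul]; norm_num
  have hpos : 0 < |3 * (y : ℝ) + 1| := by linarith
  set a := |(y : ℝ)| with ha
  set b := |3 * (y : ℝ) + 1| with hb
  have e : Real.log b - Real.log a - Real.log 3 = Real.log (b / (3 * a)) := by
    rw [Real.log_div hpos.ne' (by positivity), Real.log_mul (by norm_num) hy0.ne']
    ring
  rw [e, abs_le]
  constructor
  · -- lower bound via log (1/t) ≤ 1/t - 1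
    have h1 : Real.log (3 * a / b) ≤ 3 * a / b - 1 := Real.log_le_sub_one_of_pos (by positivity)
    have h2 : Real.log (b / (3 * a)) = - Real.log (3 * a / b) := by
      rw [← Real.log_inv, inv_div]
    have h3 : 3 * a / b - 1 ≤ 1 / (2 * N) := by
      rw [div_sub_one hpos.ne', div_le_div_iff₀ hpos (by positivity)]
      nlinarith
    rw [h2]; linarith
  · have h1 : Real.log (b / (3 * a)) ≤ b / (3 * a) - 1 := Real.log_le_sub_one_of_pos (by positivity)
    have h3 : b / (3 * a) - 1 ≤ 1 / (2 * N) := by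
      rw [div_sub_one (by positivity), div_le_div_iff₀ (by positivity) (by positivity)]
      nlinarith
    linarith

theorem log_iter {x : ℤ} {N : ℝ} (hN : 1 ≤ N) (h : ∀ j, N ≤ |((T^[j] x : ℤ) : ℝ)|) (k : ℕ) :
    |Real.log |((T^[k] x : ℤ) : ℝ)| - Real.log |(x : ℝ)| + k * Real.log 2 - od k x * Real.log 3| ≤
      od k x * (1 / (2 * N)) := by
  induction k with
  | zero => simp [od]
  | succ k ih =>
    have hk := h k
    rw [Function.iterate_succ_apply']
    set z := T^[k] x with hz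
    have hz0 : 0 < |(z : ℝ)| := by linarith
    rcases par z with h' | h'
    · rw [od_succ_even h']
      have h1 := T_even h'
      have h2 : (2 : ℝ) * ((T z : ℤ) : ℝ) = (z : ℝ) := by exact_mod_cast h1
      have h3 : Real.log |(z : ℝ)| = Real.log 2 + Real.log |((T z : ℤ) : ℝ)| := by
        rw [← h2, abs_mul, Real.log_mul (by norm_num)]
        · norm_num
        · intro h0
          rw [← h2, abs_mul, h0, mul_zero] at hz0
          exact lt_irrefl _ hz0
      rw [h3] at ih
      push_cast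
      have e : Real.log |((T z : ℤ) : ℝ)| - Real.log |(x : ℝ)| + ((k : ℝ) + 1) * Real.log 2 -
          od k x * Real.log 3 = Real.log 2 + Real.log |((T z : ℤ) : ℝ)| - Real.log |(x : ℝ)| +
          k * Real.log 2 - od k x * Real.log 3 := by ring
      rw [e]
      exact ih
    · rw [od_succ_odd h']
      have h1 := T_odd h'
      have h2 : (2 : ℝ) * ((T z : ℤ) : ℝ) = 3 * (z : ℝ) + 1 := by exact_mod_cast h1
      have hTz : ((T z : ℤ) : ℝ) ≠ 0 := by
        have hz' : z ≠ 0 := by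
          intro h0
          rw [h0] at hz0
          simp at hz0
        exact_mod_cast T_ne_zero hz'
      have h3 : Real.log |((T z : ℤ) : ℝ)| = Real.log |3 * (z : ℝ) + 1| - Real.log 2 := by
        rw [← h2, abs_mul, Real.log_mul (by norm_num) (abs_ne_zero.2 hTz)]
        norm_num
      have h4 := log_step (y := z) hN hk
      rw [h3]
      push_cast
      have e : Real.log |3 * (z : ℝ) + 1| - Real.log 2 - Real.log |(x : ℝ)| + ((k : ℝ) + 1) * Real.log 2 -
          ((od k x : ℝ) + 1) * Real.log 3 = (Real.log |(z : ℝ)| - Real.log |(x : ℝ)| +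
          k * Real.log 2 - od k x * Real.log 3) +
          (Real.log |3 * (z : ℝ) + 1| - Real.log |(z : ℝ)| - Real.log 3) := by ring
      rw [e]
      refine (abs_add_le _ _).trans ?_
      linarith

/-- in a cycle of length `p` all of whose elements have absolute value `≥ N` one has
`|p log 2 - o log 3| ≤ p / (2 N)` -/
theorem cycle_log {x : ℤ} {p : ℕ} (hp : T^[p] x = x) {N : ℝ} (hN : 1 ≤ N)
    (h : ∀ j, N ≤ |((T^[j] x : ℤ) : ℝ)|) :
    |(p : ℝ) * Real.log 2 - od p x * Real.log 3| ≤ p / (2 * N) := by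
  have h1 := log_iter hN h p
  rw [hp, sub_self, zero_add] at h1
  refine h1.trans ?_
  rw [mul_one_div]
  apply div_le_div_of_nonneg_right _ (by linarith)
  exact_mod_cast od_le p x

/-- the least absolute value in a cycle is polynomially bounded in the period -/
theorem min_bound : ∃ C : ℝ, 1 ≤ C ∧ ∀ (x : ℤ) (p : ℕ), 0 < p → x ≠ 0 → T^[p] x = x →
    (∀ j, |x| ≤ |T^[j] x|) → |(x : ℝ)| ≤ C * (p : ℝ) ^ 14 := by
  obtain ⟨c, hc, hm⟩ := measure
  refine ⟨max 1 (2 ^ 13 / (2 * c)), le_max_left _ _, ?_⟩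
  intro x p hp hx hper hmin
  have hN : (1 : ℝ) ≤ |(x : ℝ)| := by
    have : (1 : ℤ) ≤ |x| := Int.one_le_abs hx
    exact_mod_cast this
  have hmin' : ∀ j, |(x : ℝ)| ≤ |((T^[j] x : ℤ) : ℝ)| := by
    intro j
    have := hmin j
    exact_mod_cast this
  have h1 := cycle_log hper hN hmin'
  have h2 := hm (p : ℤ) (-(od p x : ℤ)) (Or.inl (by exact_mod_cast hp.ne'))
  have h3 : ((|(p : ℤ)| + |(-(od p x : ℤ))| : ℤ) : ℝ) ≤ 2 * p := by
    have : |(p : ℤ)| + |(-(od p x : ℤ))| ≤ 2 * p := by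
      rw [abs_neg, abs_of_nonneg (by positivity), abs_of_nonneg (by positivity)]
      have := od_le p x
      omega
    exact_mod_cast this
  have h4 : (0 : ℝ) ≤ ((|(p : ℤ)| + |(-(od p x : ℤ))| : ℤ) : ℝ) := by
    have : (0 : ℤ) ≤ |(p : ℤ)| + |(-(od p x : ℤ))| := by positivity
    exact_mod_cast this
  have h5 : ((|(p : ℤ)| + |(-(od p x : ℤ))| : ℤ) : ℝ) ^ 13 ≤ (2 * p) ^ 13 :=
    pow_le_pow_left₀ h4 h3 13
  have e : ((p : ℤ) : ℝ) * Real.log 2 + ((-(od p x : ℤ) : ℤ) : ℝ) * Real.log 3 =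
      (p : ℝ) * Real.log 2 - od p x * Real.log 3 := by push_cast; ring
  rw [e] at h2
  have h6 : c ≤ (2 * p) ^ 13 * (p / (2 * |(x : ℝ)|)) :=
    h2.trans (mul_le_mul h5 h1 (abs_nonneg _) (by positivity))
  have hx0 : 0 < |(x : ℝ)| := by linarith
  have h7 : c * (2 * |(x : ℝ)|) ≤ 2 ^ 13 * (p : ℝ) ^ 14 := by
    have : (2 * (p : ℝ)) ^ 13 * (p / (2 * |(x : ℝ)|)) * (2 * |(x : ℝ)|) = 2 ^ 13 * (p : ℝ) ^ 14 := by
      field_simp
    rw [← this]
    exact mul_le_mul_of_nonneg_right h6 (by positivity)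
  have h8 : |(x : ℝ)| ≤ 2 ^ 13 / (2 * c) * (p : ℝ) ^ 14 := by
    rw [div_mul_eq_mul_div, le_div_iff₀ (by positivity)]
    linarith
  exact h8.trans (mul_le_mul_of_nonneg_right (le_max_right _ _) (by positivity))

end Pool.Agent.H319R2
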