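import Mathlib

set_option autoImplicit false

/-!
Sparsity of sets on which a generalised Collatz map of coprime type is essentially injective.
-/

namespace Pool.Agent.H319R2.G

open Finset

/-! ### Tame sets -/

/-- `T` is injective on `S` up to few exceptions: after deleting at most `k` elements, `T^[k]`
maps `S` injectively to itself. -/
def Tame (T : ℤ → ℤ) (S : Set ℤ) : Prop :=
  ∀ k : ℕ, ∃ B : Finset ℤ, B.card ≤ k ∧ (∀ x ∈ S, x ∉ B → T^[k] x ∈ S) ∧
    ∀ x ∈ S, ∀ y ∈ S, x ∉ B → y ∉ B → T^[k] x = T^[k] y → x = y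

theorem tame_of_injOn {T : ℤ → ℤ} {S : Set ℤ} (hm : Set.MapsTo T S S) (hi : Set.InjOn T S) :
    Tame T S := by
  intro k
  refine ⟨∅, by simp, fun x hx _ => hm.iterate k hx, fun x hx y hy _ _ h => ?_⟩
  exact hi.iterate hm k hx hy h

theorem tame_periodic (T : ℤ → ℤ) : Tame T (Function.periodicPts T) :=
  tame_of_injOn (Function.bijOn_periodicPts T).mapsTo (Function.bijOn_periodicPts T).injOn

theorem tame_path (T : ℤ → ℤ) (x : ℤ) (r : ℕ) (h : Set.InjOn (fun i => T^[i] x) (Set.Iio r)) :
    Tame T ((fun i => T^[i] x) '' (Set.Iio r)) := by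
  classical
  intro k
  refine ⟨((range r).filter fun i => r ≤ i + k).image (fun i => T^[i] x), ?_, ?_, ?_⟩
  · refine card_image_le.trans ?_
    have : ((range r).filter fun i => r ≤ i + k) ⊆ (Finset.Ico (r - k) r) := by
      intro i hi
      rw [mem_filter, mem_range] at hi
      rw [mem_Ico]
      omega
    refine (card_le_card this).trans ?_
    rw [Nat.card_Ico]
    omega
  · rintro _ ⟨i, hi, rfl⟩ hB
    have hi' : i < r := hi
    have hik : i + k < r := by
      by_contra hc
      apply hB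
      rw [mem_image]
      exact ⟨i, by rw [mem_filter, mem_range]; omega, rfl⟩
    refine ⟨i + k, hik, ?_⟩
    simp only
    rw [Nat.add_comm, Function.iterate_add_apply]
  · rintro _ ⟨i, hi, rfl⟩ _ ⟨j, hj, rfl⟩ hBi hBj hij
    have hi' : i < r := hi
    have hj' : j < r := hj
    have hik : i + k < r := by
      by_contra hc
      apply hBi
      rw [mem_image]
      exact ⟨i, by rw [mem_filter, mem_range]; omega, rfl⟩
    have hjk : j + k < r := by
      by_contra hc
      apply hBj
      rw [mem_image]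
      exact ⟨j, by rw [mem_filter, mem_range]; omega, rfl⟩
    have e : (fun i => T^[i] x) (i + k) = (fun i => T^[i] x) (j + k) := by
      simp only at hij ⊢
      rw [Nat.add_comm i k, Nat.add_comm j k, Function.iterate_add_apply,
        Function.iterate_add_apply]
      exact hij
    have := h (show i + k ∈ Set.Iio r from hik) (show j + k ∈ Set.Iio r from hjk) e
    have : i = j := by omega
    rw [this]

/-- every finite subset of an orbit lies on an injective initial piece of it -/
theorem finite_subset_path (T : ℤ → ℤ) (x : ℤ) (F : Finset ℤ) (hF : ∀ y ∈ F, ∃ i, T^[i] x = y) :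
    ∃ r : ℕ, Set.InjOn (fun i => T^[i] x) (Set.Iio r) ∧ ∀ y ∈ F, ∃ i < r, T^[i] x = y := by
  classical
  by_cases hinj : Function.Injective (fun i => T^[i] x)
  · choose! f hf using hF
    refine ⟨F.sup f + 1, hinj.injOn, fun y hy => ⟨f y, Nat.lt_succ_of_le (le_sup hy), hf y hy⟩⟩
  · -- first repetition
    have hex : ∃ r : ℕ, ∃ i < r, T^[i] x = T^[r] x := by
      unfold Function.Injective at hinj
      push Not at hinj
      obtain ⟨i, j, hij, hne⟩ := hinj
      rcases lt_or_gt_of_ne hne with h | h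
      · exact ⟨j, i, h, hij⟩
      · exact ⟨i, j, h, hij.symm⟩
    set r := Nat.find hex with hr
    obtain ⟨i0, hi0, hrep⟩ := Nat.find_spec hex
    refine ⟨r, ?_, ?_⟩
    · intro i hi j hj hij
      have hi : i < r := hi
      have hj : j < r := hj
      by_contra hne
      rcases lt_or_gt_of_ne hne with h | h
      · exact Nat.find_min hex hj ⟨i, h, hij⟩
      · exact Nat.find_min hex hi ⟨j, h, hij.symm⟩
    · have hall : ∀ n : ℕ, ∃ i < r, T^[i] x = T^[n] x := by
        intro n
        induction n with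
        | zero => exact ⟨0, by omega, rfl⟩
        | succ n ih =>
          obtain ⟨i, hi, he⟩ := ih
          rcases Nat.lt_or_ge (i + 1) r with h | h
          · exact ⟨i + 1, h, by rw [Function.iterate_succ_apply', Function.iterate_succ_apply', he]⟩
          · have : i + 1 = r := by omega
            refine ⟨i0, hi0, ?_⟩
            rw [hrep, ← hr, ← this, Function.iterate_succ_apply', Function.iterate_succ_apply', he]
      intro y hy
      obtain ⟨n, hn⟩ := hF y hy
      obtain ⟨i, hi, he⟩ := hall n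
      exact ⟨i, hi, by rw [he, hn]⟩

/-! ### Generalised Collatz maps of coprime type -/

/-- data of a generalised Collatz map of coprime type: `x ↦ (m_i x - r_i) / d` for `x ≡ i (mod d)` -/
structure GC where
  /-- the modulus -/
  d : ℕ
  /-- the multipliers -/
  m : ℤ → ℤ
  /-- the remainders -/
  r : ℤ → ℤ
  two_le : 2 ≤ d
  cop : ∀ i : ℤ, 0 ≤ i → i < d → IsCoprime (m i) (d : ℤ)
  dvd : ∀ i : ℤ, 0 ≤ i → i < d → (d : ℤ) ∣ m i * i - r i

namespace GC

variable (g : GC)

/-- the map -/
def T (x : ℤ) : ℤ := (g.m (x % g.d) * x - g.r (x % g.d)) / g.d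

theorem d_pos : (0 : ℤ) < g.d := by have := g.two_le; omega

theorem res_nonneg (x : ℤ) : 0 ≤ x % g.d := Int.emod_nonneg _ g.d_pos.ne'

theorem res_lt (x : ℤ) : x % g.d < g.d := Int.emod_lt_of_pos _ g.d_pos

theorem T_mul (x : ℤ) : (g.d : ℤ) * g.T x = g.m (x % g.d) * x - g.r (x % g.d) := by
  unfold T
  apply Int.mul_ediv_cancel'
  have h1 := g.dvd (x % g.d) (g.res_nonneg x) (g.res_lt x)
  have h2 : g.m (x % g.d) * x - g.r (x % g.d) =
      (g.m (x % g.d) * (x % g.d) - g.r (x % g.d)) + g.m (x % g.d) * (x - x % g.d) := by ring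
  rw [h2]
  exact dvd_add h1 (Dvd.dvd.mul_left (Int.dvd_self_sub_emod) _)

theorem m_ne (x : ℤ) : g.m (x % g.d) ≠ 0 := by
  intro h0
  have h := g.cop (x % g.d) (g.res_nonneg x) (g.res_lt x)
  rw [h0, isCoprime_zero_left, Int.isUnit_iff] at h
  have := g.two_le
  omega

/-- the itinerary determines the residue modulo `d ^ k` -/
theorem same_it (k : ℕ) : ∀ x y : ℤ, (∀ j < k, (g.T^[j] x) % g.d = (g.T^[j] y) % g.d) →
    (g.d : ℤ) ^ k ∣ x - y := by
  induction k with
  | zero => intro x y _; simp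
  | succ k ih =>
    intro x y h
    have h0 : x % g.d = y % g.d := by simpa using h 0 (by omega)
    have h1 : (g.d : ℤ) ^ k ∣ g.T x - g.T y := by
      apply ih
      intro j hj
      have := h (j + 1) (by omega)
      rwa [Function.iterate_succ_apply, Function.iterate_succ_apply] at this
    have e1 := g.T_mul x
    have e2 := g.T_mul y
    rw [← h0] at e2
    have e3 : (g.d : ℤ) * (g.T x - g.T y) = g.m (x % g.d) * (x - y) := by
      rw [mul_sub, e1, e2]; ring
    have h2 : (g.d : ℤ) ^ (k + 1) ∣ g.m (x % g.d) * (x - y) := by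
      rw [← e3, pow_succ']
      exact mul_dvd_mul_left _ h1
    have hc : IsCoprime ((g.d : ℤ) ^ (k + 1)) (g.m (x % g.d)) :=
      (g.cop _ (g.res_nonneg x) (g.res_lt x)).symm.pow_left
    exact hc.dvd_of_dvd_mul_left h2

/-- size of the multiplier -/
noncomputable def a (i : ℤ) : ℝ := |(g.m i : ℝ)| / g.d

theorem dr : (2 : ℝ) ≤ g.d := by exact_mod_cast g.two_le

theorem a_ge (x : ℤ) : 1 / (g.d : ℝ) ≤ g.a (x % g.d) := by
  unfold a
  have h1 : (1 : ℝ) ≤ |(g.m (x % g.d) : ℝ)| := by
    have : (1 : ℤ) ≤ |g.m (x % g.d)| := Int.one_le_abs (g.m_ne x)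
    exact_mod_cast this
  have := g.dr
  exact div_le_div_of_nonneg_right h1 (by linarith)

theorem a_pos (x : ℤ) : 0 < g.a (x % g.d) := by
  have := g.a_ge x
  have h : 0 < 1 / (g.d : ℝ) := by have := g.dr; positivity
  linarith

/-- a bound for the remainders -/
noncomputable def R : ℝ := ∑ i ∈ range g.d, |(g.r i : ℝ)|

theorem R_nonneg : 0 ≤ g.R := sum_nonneg fun _ _ => abs_nonneg _

theorem r_le (x : ℤ) : |(g.r (x % g.d) : ℝ)| ≤ g.R := by
  have h0 := g.res_nonneg x
  have h1 := g.res_lt x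
  obtain ⟨i, hi⟩ := Int.eq_ofNat_of_zero_le h0
  rw [hi]
  have hi2 : i ∈ range g.d := by
    rw [mem_range]; omega
  exact single_le_sum (f := fun i : ℕ => |(g.r (i : ℤ) : ℝ)|) (fun _ _ => abs_nonneg _) hi2

/-- one step upper bound -/
theorem step_le (x : ℤ) : |(g.T x : ℝ)| ≤ g.a (x % g.d) * |(x : ℝ)| + g.R := by
  have h := g.T_mul x
  have h' : (g.d : ℝ) * (g.T x : ℝ) = (g.m (x % g.d) : ℝ) * x - (g.r (x % g.d) : ℝ) := by
    exact_mod_cast h
  have hd := g.dr
  have h2 : (g.d : ℝ) * |(g.T x : ℝ)| ≤ |(g.m (x % g.d) : ℝ)| * |(x : ℝ)| + g.R := by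
    rw [← abs_of_pos (show (0 : ℝ) < g.d by linarith), ← abs_mul, h']
    refine (abs_sub _ _).trans ?_
    rw [abs_mul]
    have := g.r_le x
    linarith
  have hR := g.R_nonneg
  unfold a
  have h3 : |(g.T x : ℝ)| ≤ (|(g.m (x % g.d) : ℝ)| * |(x : ℝ)| + g.R) / g.d := by
    rw [le_div_iff₀ (by linarith)]; linarith
  refine h3.trans ?_
  rw [add_div, mul_div_right_comm]
  have : g.R / g.d ≤ g.R := div_le_self hR (by linarith)
  linarith

/-- product of the multipliers along the orbit -/
noncomputable def prod (k : ℕ) (x : ℤ) : ℝ := ∏ j ∈ range k, g.a ((g.T^[j] x) % g.d)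

theorem prod_pos' (k : ℕ) (x : ℤ) : 0 < g.prod k x :=
  Finset.prod_pos fun _ _ => g.a_pos _

/-- the iterates as long as they stay away from the origin -/
theorem iter_le (Y : ℝ) (hY : 0 < Y) (k : ℕ) (x : ℤ) (h : ∀ j < k, Y ≤ |((g.T^[j] x : ℤ) : ℝ)|) :
    |((g.T^[k] x : ℤ) : ℝ)| ≤ g.prod k x * |(x : ℝ)| * Real.exp (k * (g.R * g.d / Y)) := by
  induction k with
  | zero => simp [GC.prod]
  | succ k ih =>
    have ih' := ih (fun j hj => h j (by omega))
    rw [Function.iterate_succ_apply']
    set z := g.T^[k] x with hz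
    have hzY : Y ≤ |(z : ℝ)| := h k (by omega)
    have h1 := g.step_le z
    have ha := g.a_ge z
    have ha0 := g.a_pos z
    have hd := g.dr
    have hR := g.R_nonneg
    have h2 : g.R ≤ g.a (z % g.d) * |(z : ℝ)| * (g.R * g.d / Y) := by
      have h3 : 1 / (g.d : ℝ) * Y ≤ g.a (z % g.d) * |(z : ℝ)| :=
        mul_le_mul ha hzY hY.le ha0.le
      have h4 : 0 ≤ g.R * g.d / Y := by positivity
      calc g.R = 1 / (g.d : ℝ) * Y * (g.R * g.d / Y) := by
            field_simp
        _ ≤ _ := mul_le_mul_of_nonneg_right h3 h4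
    have h5 : |(g.T z : ℝ)| ≤ g.a (z % g.d) * |(z : ℝ)| * Real.exp (g.R * g.d / Y) := by
      have h6 := Real.add_one_le_exp (g.R * g.d / Y)
      have h7 : 0 ≤ g.a (z % g.d) * |(z : ℝ)| := by positivity
      nlinarith
    refine h5.trans ?_
    have e : g.prod (k + 1) x = g.prod k x * g.a (z % g.d) := by
      unfold GC.prod; rw [prod_range_succ]
    rw [e]
    have e2 : Real.exp (((k + 1 : ℕ) : ℝ) * (g.R * g.d / Y)) =
        Real.exp (k * (g.R * g.d / Y)) * Real.exp (g.R * g.d / Y) := by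
      rw [← Real.exp_add]; congr 1; push_cast; ring
    rw [e2]
    calc g.a (z % g.d) * |(z : ℝ)| * Real.exp (g.R * g.d / Y)
        ≤ g.a (z % g.d) * (g.prod k x * |(x : ℝ)| * Real.exp (k * (g.R * g.d / Y))) *
            Real.exp (g.R * g.d / Y) := by
          apply mul_le_mul_of_nonneg_right _ (Real.exp_pos _).le
          exact mul_le_mul_of_nonneg_left ih' ha0.le
      _ = _ := by ring

/-- the itinerary of length `k` -/
def it (k : ℕ) (x : ℤ) : Fin k → ℕ := fun j => ((g.T^[j] x) % g.d).toNat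

theorem it_eq (k : ℕ) (x : ℤ) (j : Fin k) : ((g.it k x j : ℕ) : ℤ) = (g.T^[j] x) % g.d :=
  Int.toNat_of_nonneg (g.res_nonneg _)

theorem it_mem (k : ℕ) (x : ℤ) : g.it k x ∈ Fintype.piFinset (fun _ : Fin k => range g.d) := by
  rw [Fintype.mem_piFinset]
  intro j
  rw [mem_range]
  have h1 := g.it_eq k x j
  have h2 := g.res_lt (g.T^[j] x)
  omega

theorem prod_it (k : ℕ) (x : ℤ) : g.prod k x = ∏ j : Fin k, g.a (g.it k x j) := by
  unfold GC.prod
  rw [Finset.prod_range]
  apply prod_congr rfl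
  intro j _
  rw [g.it_eq]

/-- the elements of an interval with large multiplier -/
theorem card_large (k : ℕ) (c s : ℝ) (hc : 0 < c) (hs : 0 ≤ s) (F : Finset ℤ)
    (hF : ∀ x ∈ F, |x| ≤ (g.d : ℤ) ^ k ∧ c < g.prod k x) :
    (F.card : ℝ) ≤ 3 * (1 / c) ^ s * (∑ i ∈ range g.d, g.a i ^ s) ^ k := by
  classical
  set W := (Fintype.piFinset (fun _ : Fin k => range g.d)).filter
    (fun w => c < ∏ j : Fin k, g.a (w j)) with hW
  have himg : F.image (g.it k) ⊆ W := by
    intro w hw
    rw [mem_image] at hw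
    obtain ⟨x, hx, rfl⟩ := hw
    rw [hW, mem_filter]
    refine ⟨g.it_mem k x, ?_⟩
    rw [← g.prod_it]; exact (hF x hx).2
  have hdk : (0 : ℤ) < (g.d : ℤ) ^ k := pow_pos g.d_pos k
  have hfib : F.card ≤ 3 * (F.image (g.it k)).card := by
    apply card_le_mul_card_image
    intro w hw
    rw [mem_image] at hw
    obtain ⟨x0, hx0, hw0⟩ := hw
    set Fw := F.filter (fun x => g.it k x = w) with hFw
    have hne : Fw.Nonempty := ⟨x0, by rw [hFw, mem_filter]; exact ⟨hx0, hw0⟩⟩
    set y := Fw.min' hne with hy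
    have hymem : y ∈ Fw := Fw.min'_mem hne
    have hsub : Fw ⊆ ({y, y + (g.d : ℤ) ^ k, y + 2 * (g.d : ℤ) ^ k} : Finset ℤ) := by
      intro x hx
      have hyx : y ≤ x := Fw.min'_le x hx
      have hx' := mem_filter.1 hx
      have hy' := mem_filter.1 hymem
      have hdiv : (g.d : ℤ) ^ k ∣ x - y := by
        apply g.same_it
        intro j hj
        have e1 := g.it_eq k x ⟨j, hj⟩
        have e2 := g.it_eq k y ⟨j, hj⟩
        rw [hx'.2] at e1
        rw [hy'.2] at e2
        rw [← e1, ← e2]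
      obtain ⟨q, hq⟩ := hdiv
      have h1 := abs_le.1 (hF x hx'.1).1
      have h2 := abs_le.1 (hF y hy'.1).1
      have hq0 : 0 ≤ q := by
        by_contra hneg
        have : q ≤ -1 := by omega
        nlinarith
      have hq2 : q ≤ 2 := by
        by_contra hbig
        have : 3 ≤ q := by omega
        nlinarith
      simp only [mem_insert, mem_singleton]
      interval_cases q
      · left; linarith
      · right; left; linarith
      · right; right; linarith
    exact (card_le_card hsub).trans (card_le_three)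
  have hWc : (W.card : ℝ) ≤ (1 / c) ^ s * (∑ i ∈ range g.d, g.a i ^ s) ^ k := by
    have h1 : (∑ i ∈ range g.d, g.a i ^ s) ^ k =
        ∑ w ∈ Fintype.piFinset (fun _ : Fin k => range g.d), ∏ j : Fin k, g.a (w j) ^ s := by
      rw [← Finset.prod_univ_sum (fun _ : Fin k => range g.d) (fun _ i => g.a (i : ℤ) ^ s)]
      rw [prod_const, card_univ, Fintype.card_fin]
    have hpos : ∀ w ∈ Fintype.piFinset (fun _ : Fin k => range g.d), ∀ j : Fin k,
        0 < g.a (w j) := by
      intro w hw j
      rw [Fintype.mem_piFinset] at hw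
      have h2 := mem_range.1 (hw j)
      have h3 : ((w j : ℕ) : ℤ) % g.d = w j := Int.emod_eq_of_lt (by positivity) (by exact_mod_cast h2)
      rw [← h3]; exact g.a_pos _
    rw [h1, one_div, Real.inv_rpow hc.le, ← div_eq_inv_mul, le_div_iff₀ (Real.rpow_pos_of_pos hc s),
      ← nsmul_eq_mul]
    calc W.card • c ^ s ≤ ∑ w ∈ W, ∏ j : Fin k, g.a (w j) ^ s := by
          apply card_nsmul_le_sum
          intro w hw
          rw [hW, mem_filter] at hw
          rw [Real.finsetProd_rpow _ _ (fun j _ => (hpos w hw.1 j).le)]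
          exact Real.rpow_le_rpow hc.le hw.2.le hs
      _ ≤ _ := by
          apply sum_le_sum_of_subset_of_nonneg (filter_subset _ _)
          intro w hw _
          exact prod_nonneg fun j _ => (Real.rpow_pos_of_pos (hpos w hw j) s).le
  have h3 : (F.card : ℝ) ≤ 3 * W.card := by
    exact_mod_cast hfib.trans (Nat.mul_le_mul_left _ (card_le_card himg))
  calc (F.card : ℝ) ≤ 3 * W.card := h3
    _ ≤ 3 * ((1 / c) ^ s * (∑ i ∈ range g.d, g.a i ^ s) ^ k) :=
        mul_le_mul_of_nonneg_left hWc (by norm_num)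
    _ = _ := by ring

end GC

end Pool.Agent.H319R2.G
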