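import Mathlib
import Pool.Agent.H33.G.R_seed8.H319R2.GSparse

set_option autoImplicit false

/-!
Power-saving bounds for tame sets of generalised Collatz maps of coprime type.
-/

namespace Pool.Agent.H319R2.G

open Finset Filter

/-- sums of reciprocals over a set with power-saving counting function -/
theorem recip_of_sparse (η C : ℝ) (hη0 : 0 < η) (hη1 : η < 1) (hC : 0 ≤ C) (S : Set ℤ)
    (hS : ∀ X : ℝ, 1 ≤ X → ∀ F : Finset ℤ, (∀ x ∈ F, x ∈ S ∧ |(x : ℝ)| ≤ X) →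
      (F.card : ℝ) ≤ C * X ^ η) :
    ∀ N : ℝ, 1 ≤ N → ∀ F : Finset ℤ, (∀ x ∈ F, x ∈ S ∧ N ≤ |(x : ℝ)|) →
      ∑ x ∈ F, 1 / |(x : ℝ)| ≤ C * 2 ^ η / (1 - 2 ^ (η - 1)) * N ^ (η - 1) := by
  classical
  set ρ : ℝ := 2 ^ (η - 1) with hρ
  have hρ0 : 0 < ρ := by positivity
  have hρ1 : ρ < 1 := Real.rpow_lt_one_of_one_lt_of_neg (by norm_num) (by linarith)
  intro N hN F hF
  have hN0 : 0 < N := by linarith
  set lev : ℤ → ℕ := fun x => Nat.log 2 ⌊|(x : ℝ)| / N⌋₊ with hlev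
  have hlevel : ∀ x ∈ F, 2 ^ (lev x) * N ≤ |(x : ℝ)| ∧ |(x : ℝ)| ≤ 2 ^ (lev x + 1) * N := by
    intro x hx
    have h1 : 1 ≤ |(x : ℝ)| / N := by rw [one_le_div hN0]; exact (hF x hx).2
    have hfl : ⌊|(x : ℝ)| / N⌋₊ ≠ 0 := by
      have : 1 ≤ ⌊|(x : ℝ)| / N⌋₊ := Nat.one_le_floor_iff _ |>.2 h1
      omega
    constructor
    · have h2 : 2 ^ lev x ≤ ⌊|(x : ℝ)| / N⌋₊ := Nat.pow_log_le_self 2 hfl
      have h3 : (⌊|(x : ℝ)| / N⌋₊ : ℝ) ≤ |(x : ℝ)| / N := Nat.floor_le (by positivity)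
      have h4 : ((2 ^ lev x : ℕ) : ℝ) ≤ (⌊|(x : ℝ)| / N⌋₊ : ℝ) := by exact_mod_cast h2
      push_cast at h4
      have h5 := h4.trans h3
      rwa [le_div_iff₀ hN0] at h5
    · have h2 : ⌊|(x : ℝ)| / N⌋₊ + 1 ≤ 2 ^ (lev x + 1) :=
        Nat.lt_pow_succ_log_self (b := 2) (by norm_num) ⌊|(x : ℝ)| / N⌋₊
      have h3 : |(x : ℝ)| / N < ⌊|(x : ℝ)| / N⌋₊ + 1 := Nat.lt_floor_add_one _
      have h4 : ((⌊|(x : ℝ)| / N⌋₊ + 1 : ℕ) : ℝ) ≤ ((2 ^ (lev x + 1) : ℕ) : ℝ) := by exact_mod_cast h2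
      push_cast at h4
      have h5 : |(x : ℝ)| / N ≤ 2 ^ (lev x + 1) := by linarith
      rwa [div_le_iff₀ hN0] at h5
  set I := F.sup lev + 1 with hI
  have hmaps : ∀ x ∈ F, lev x ∈ range I := by
    intro x hx
    rw [mem_range, hI]
    exact Nat.lt_succ_of_le (le_sup hx)
  rw [← sum_fiberwise_of_maps_to hmaps]
  have hterm : ∀ i ∈ range I, ∑ x ∈ F with lev x = i, 1 / |(x : ℝ)| ≤
      C * 2 ^ η * N ^ (η - 1) * ρ ^ i := by
    intro i _
    set G := F.filter (fun x => lev x = i) with hG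
    have hGc : (G.card : ℝ) ≤ C * (2 ^ (i + 1) * N) ^ η := by
      apply hS (2 ^ (i + 1) * N)
      · have : (1 : ℝ) ≤ 2 ^ (i + 1) := one_le_pow₀ (by norm_num)
        nlinarith
      · intro x hx
        rw [hG, mem_filter] at hx
        refine ⟨(hF x hx.1).1, ?_⟩
        have := (hlevel x hx.1).2
        rwa [hx.2] at this
    have hsum : ∑ x ∈ G, 1 / |(x : ℝ)| ≤ G.card * (1 / (2 ^ i * N)) := by
      rw [← nsmul_eq_mul]
      apply sum_le_card_nsmul
      intro x hx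
      rw [hG, mem_filter] at hx
      have := (hlevel x hx.1).1
      rw [hx.2] at this
      exact one_div_le_one_div_of_le (by positivity) this
    refine hsum.trans ((mul_le_mul_of_nonneg_right hGc (by positivity)).trans (le_of_eq ?_))
    have e1 : ((2 : ℝ) ^ (i + 1) * N) ^ η = 2 ^ η * (2 ^ i * N) ^ η := by
      rw [← Real.mul_rpow (by norm_num) (by positivity), pow_succ]; congr 1; ring
    have e2 : ((2 : ℝ) ^ i * N) ^ η * (1 / (2 ^ i * N)) = (2 ^ i * N) ^ (η - 1) := by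
      rw [Real.rpow_sub_one (by positivity)]; ring
    have e3 : ((2 : ℝ) ^ i * N) ^ (η - 1) = ρ ^ i * N ^ (η - 1) := by
      rw [Real.mul_rpow (by positivity) hN0.le, hρ, ← Real.rpow_natCast (2 ^ (η - 1)) i,
        ← Real.rpow_mul (by norm_num), ← Real.rpow_natCast 2 i, ← Real.rpow_mul (by norm_num)]
      congr 2; ring
    calc C * ((2 : ℝ) ^ (i + 1) * N) ^ η * (1 / (2 ^ i * N))
        = C * 2 ^ η * (((2 : ℝ) ^ i * N) ^ η * (1 / (2 ^ i * N))) := by rw [e1]; ring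
      _ = C * 2 ^ η * (ρ ^ i * N ^ (η - 1)) := by rw [e2, e3]
      _ = _ := by ring
  refine (sum_le_sum hterm).trans ?_
  rw [← mul_sum]
  have hgeom : ∑ i ∈ range I, ρ ^ i ≤ 1 / (1 - ρ) := by
    have h1 : ∑ i ∈ range I, ρ ^ i = (1 - ρ ^ I) / (1 - ρ) := by
      rw [geom_sum_eq hρ1.ne, ← neg_div_neg_eq]; congr 1 <;> ring
    rw [h1]
    apply div_le_div_of_nonneg_right _ (by linarith)
    have : 0 < ρ ^ I := by positivity
    linarith
  calc C * 2 ^ η * N ^ (η - 1) * ∑ i ∈ range I, ρ ^ i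
      ≤ C * 2 ^ η * N ^ (η - 1) * (1 / (1 - ρ)) :=
        mul_le_mul_of_nonneg_left hgeom (by positivity)
    _ = C * 2 ^ η / (1 - ρ) * N ^ (η - 1) := by ring

namespace GC

variable (g : GC)

/-- elements of `S` of absolute value at most `d ^ k` -/
noncomputable def AS (S : Set ℤ) (k : ℕ) : Finset ℤ := by
  classical
  exact (Finset.Icc (-((g.d : ℤ) ^ k)) ((g.d : ℤ) ^ k)).filter fun x => x ∈ S

theorem mem_AS {S : Set ℤ} {k : ℕ} {x : ℤ} : x ∈ g.AS S k ↔ |x| ≤ (g.d : ℤ) ^ k ∧ x ∈ S := by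
  classical
  unfold AS
  rw [mem_filter, mem_Icc, abs_le]

theorem AS_card_le (S : Set ℤ) (k : ℕ) : ((g.AS S k).card : ℝ) ≤ 3 * (g.d : ℝ) ^ k := by
  classical
  have h1 : (g.AS S k).card ≤ 2 * g.d ^ k + 1 := by
    unfold AS
    refine (card_filter_le _ _).trans ?_
    rw [Int.card_Icc]
    have : (0 : ℤ) < (g.d : ℤ) ^ k := pow_pos g.d_pos k
    zify
    rw [Int.toNat_of_nonneg (by linarith)]
    linarith
  have h2 : ((g.AS S k).card : ℝ) ≤ 2 * (g.d : ℝ) ^ k + 1 := by exact_mod_cast h1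
  have h3 : (1 : ℝ) ≤ (g.d : ℝ) ^ k := one_le_pow₀ (by have := g.dr; linarith)
  linarith

/-- number of integers in a short interval -/
theorem card_short (Y : ℝ) (hY : 0 < Y) (F : Finset ℤ) (hF : ∀ y ∈ F, |(y : ℝ)| < Y) :
    (F.card : ℝ) ≤ 2 * Y + 1 := by
  have hsub : F ⊆ Finset.Icc (-⌊Y⌋) ⌊Y⌋ := by
    intro y hy
    have h := abs_lt.1 (hF y hy)
    rw [mem_Icc]
    constructor
    · rw [neg_le]
      apply Int.le_floor.2
      push_cast; linarith
    · apply Int.le_floor.2; linarith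
  have h1 := card_le_card hsub
  rw [Int.card_Icc] at h1
  have h2 : (0 : ℤ) ≤ ⌊Y⌋ := Int.floor_nonneg.2 hY.le
  have h3 : ((⌊Y⌋ + 1 - -⌊Y⌋).toNat : ℝ) = 2 * ⌊Y⌋ + 1 := by
    have : ((⌊Y⌋ + 1 - -⌊Y⌋).toNat : ℤ) = 2 * ⌊Y⌋ + 1 := by
      rw [Int.toNat_of_nonneg (by linarith)]; ring
    exact_mod_cast this
  have h4 : (F.card : ℝ) ≤ ((⌊Y⌋ + 1 - -⌊Y⌋).toNat : ℝ) := by exact_mod_cast h1
  rw [h3] at h4
  have := Int.floor_le Y
  linarith

theorem rec_step {S : Set ℤ} (hS : Tame g.T S) (k : ℕ) (hk1 : 1 ≤ k) (Y : ℝ) (hY : 0 < Y)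
    (hkY : (k : ℝ) * (g.R * g.d / Y) ≤ Real.log 2) (s : ℝ) (hs : 0 ≤ s) :
    ((g.AS S k).card : ℝ) ≤ (g.AS S (k - 1)).card + k + (k + 1) * (k + (2 * Y + 1)) +
      3 * (2 * g.d) ^ s * (∑ i ∈ range g.d, g.a i ^ s) ^ k := by
  classical
  have hd := g.dr
  set c : ℝ := 1 / (2 * g.d) with hc
  have hc0 : 0 < c := by positivity
  set F := g.AS S k with hF
  set F1 := (range (k + 1)).biUnion (fun j => F.filter (fun x => |((g.T^[j] x : ℤ) : ℝ)| < Y)) with hF1
  set F2 := F.filter (fun x => c < g.prod k x) with hF2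
  set F3 := F.filter (fun x => (∀ j ≤ k, Y ≤ |((g.T^[j] x : ℤ) : ℝ)|) ∧ g.prod k x ≤ c) with hF3
  have hcover : F ⊆ (F1 ∪ F2) ∪ F3 := by
    intro x hx
    rw [mem_union, mem_union]
    by_cases h1 : x ∈ F1
    · exact Or.inl (Or.inl h1)
    by_cases h2 : c < g.prod k x
    · exact Or.inl (Or.inr (by rw [hF2, mem_filter]; exact ⟨hx, h2⟩))
    · right
      rw [hF3, mem_filter]
      refine ⟨hx, ?_, not_lt.1 h2⟩
      intro j hj
      by_contra h3
      apply h1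
      rw [hF1, mem_biUnion]
      exact ⟨j, by rw [mem_range]; omega, by rw [mem_filter]; exact ⟨hx, not_le.1 h3⟩⟩
  have hc1 : (F1.card : ℝ) ≤ (k + 1) * (k + (2 * Y + 1)) := by
    have h1 : F1.card ≤ ∑ j ∈ range (k + 1),
        (F.filter (fun x => |((g.T^[j] x : ℤ) : ℝ)| < Y)).card := card_biUnion_le
    have h2 : (F1.card : ℝ) ≤ ∑ j ∈ range (k + 1),
        (((F.filter (fun x => |((g.T^[j] x : ℤ) : ℝ)| < Y)).card : ℕ) : ℝ) := by exact_mod_cast h1
    refine h2.trans ?_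
    have h3 : ∀ j ∈ range (k + 1),
        (((F.filter (fun x => |((g.T^[j] x : ℤ) : ℝ)| < Y)).card : ℕ) : ℝ) ≤ k + (2 * Y + 1) := by
      intro j hj
      rw [mem_range] at hj
      obtain ⟨B, hB, hmap, hinj⟩ := hS j
      set G := F.filter (fun x => |((g.T^[j] x : ℤ) : ℝ)| < Y) with hG
      have h4 : G ⊆ (G \ B) ∪ B := by
        intro x hx
        rw [mem_union, Finset.mem_sdiff]
        by_cases h : x ∈ B
        · exact Or.inr h
        · exact Or.inl ⟨hx, h⟩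
      have h5 := (card_le_card h4).trans (card_union_le _ _)
      have h6 : ((G \ B).card : ℝ) ≤ 2 * Y + 1 := by
        have hio : Set.InjOn (g.T^[j]) (G \ B : Finset ℤ) := by
          intro x hx y hy hxy
          have hx := Finset.mem_sdiff.1 hx
          have hy := Finset.mem_sdiff.1 hy
          exact hinj x (g.mem_AS.1 (mem_filter.1 hx.1).1).2 y (g.mem_AS.1 (mem_filter.1 hy.1).1).2
            hx.2 hy.2 hxy
        rw [← card_image_of_injOn hio]
        apply card_short Y hY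
        intro y hy
        rw [mem_image] at hy
        obtain ⟨x, hx, rfl⟩ := hy
        exact (mem_filter.1 (Finset.mem_sdiff.1 hx).1).2
      have h7 : (G.card : ℝ) ≤ (G \ B).card + B.card := by exact_mod_cast h5
      have h8 : (B.card : ℝ) ≤ k := by
        have : B.card ≤ k := hB.trans (by omega)
        exact_mod_cast this
      linarith
    refine (sum_le_sum h3).trans (le_of_eq ?_)
    rw [sum_const, card_range, nsmul_eq_mul]; push_cast; ring
  have hc2 : (F2.card : ℝ) ≤ 3 * (2 * g.d) ^ s * (∑ i ∈ range g.d, g.a i ^ s) ^ k := by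
    have h1 := g.card_large k c s hc0 hs F2 (by
      intro x hx
      rw [hF2, mem_filter] at hx
      exact ⟨(g.mem_AS.1 hx.1).1, hx.2⟩)
    have h2 : 1 / c = 2 * g.d := by rw [hc, one_div_one_div]
    rwa [h2] at h1
  have hc3 : (F3.card : ℝ) ≤ (g.AS S (k - 1)).card + k := by
    obtain ⟨B, hB, hmap, hinj⟩ := hS k
    have h4 : F3 ⊆ (F3 \ B) ∪ B := by
      intro x hx
      rw [mem_union, Finset.mem_sdiff]
      by_cases h : x ∈ B
      · exact Or.inr h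
      · exact Or.inl ⟨hx, h⟩
    have h5 := (card_le_card h4).trans (card_union_le _ _)
    have h6 : (F3 \ B).card ≤ (g.AS S (k - 1)).card := by
      apply card_le_card_of_injOn (g.T^[k])
      · intro x hx
        have hx := Finset.mem_sdiff.1 hx
        have hx' := mem_filter.1 hx.1
        obtain ⟨hx1, hx2⟩ := g.mem_AS.1 hx'.1
        rw [mem_coe, g.mem_AS]
        refine ⟨?_, hmap x hx2 hx.2⟩
        have h7 := g.iter_le Y hY k x (fun j hj => hx'.2.1 j hj.le)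
        have h8 : Real.exp (k * (g.R * g.d / Y)) ≤ 2 := by
          calc Real.exp (k * (g.R * g.d / Y)) ≤ Real.exp (Real.log 2) := Real.exp_le_exp.2 hkY
            _ = 2 := Real.exp_log (by norm_num)
        have h9 : |(x : ℝ)| ≤ (g.d : ℝ) ^ k := by exact_mod_cast hx1
        have h10 : |((g.T^[k] x : ℤ) : ℝ)| ≤ (g.d : ℝ) ^ (k - 1) := by
          have hp := g.prod_pos' k x
          calc |((g.T^[k] x : ℤ) : ℝ)| ≤ g.prod k x * |(x : ℝ)| * Real.exp (k * (g.R * g.d / Y)) := h7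
            _ ≤ c * (g.d : ℝ) ^ k * 2 := by
                apply mul_le_mul _ h8 (Real.exp_pos _).le (by positivity)
                exact mul_le_mul hx'.2.2 h9 (abs_nonneg _) hc0.le
            _ = (g.d : ℝ) ^ (k - 1) := by
                have : (g.d : ℝ) ^ k = g.d ^ (k - 1) * g.d := by
                  rw [← pow_succ]; congr 1; omega
                rw [this, hc]; field_simp
        exact_mod_cast h10
      · intro x hx y hy hxy
        have hx := Finset.mem_sdiff.1 hx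
        have hy := Finset.mem_sdiff.1 hy
        exact hinj x (g.mem_AS.1 (mem_filter.1 hx.1).1).2 y (g.mem_AS.1 (mem_filter.1 hy.1).1).2
          hx.2 hy.2 hxy
    have h7 : F3.card ≤ (g.AS S (k - 1)).card + k := by omega
    exact_mod_cast h7
  have h1 := (card_le_card hcover).trans (card_union_le _ _)
  have h2 := card_union_le F1 F2
  have h3 : (F.card : ℝ) ≤ F1.card + F2.card + F3.card := by
    have : F.card ≤ F1.card + F2.card + F3.card := by omega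
    exact_mod_cast this
  linarith

/-- **Sparsity.** -/
theorem sparse (s η : ℝ) (hs : 0 ≤ s) (hη : 1 / 2 < η)
    (hφ : ∑ i ∈ range g.d, g.a i ^ s < (g.d : ℝ) ^ η) :
    ∃ C : ℝ, 0 < C ∧ ∀ S : Set ℤ, Tame g.T S → ∀ X : ℝ, 1 ≤ X →
      ∀ F : Finset ℤ, (∀ x ∈ F, x ∈ S ∧ |(x : ℝ)| ≤ X) → (F.card : ℝ) ≤ C * X ^ η := by
  classical
  have hd := g.dr
  have hd0 : (0 : ℝ) < g.d := by linarith
  have hR := g.R_nonneg
  set φ := ∑ i ∈ range g.d, g.a i ^ s with hφdef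
  set ρ : ℝ := (g.d : ℝ) ^ η with hρ
  set q : ℝ := (g.d : ℝ) ^ (1 / 2 : ℝ) with hq
  have hq0 : 0 < q := by positivity
  have hq1 : 1 < q := Real.one_lt_rpow (by linarith) (by norm_num)
  have hqρ : q < ρ := Real.rpow_lt_rpow_of_exponent_lt (by linarith) hη
  have hρ0 : 0 < ρ := by positivity
  have hρ1 : 1 < ρ := hq1.trans hqρ
  have hφ0 : 0 ≤ φ := by
    apply sum_nonneg
    intro i hi
    apply Real.rpow_nonneg
    unfold a; positivity
  -- the error terms are `O(ρ ^ k)`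
  obtain ⟨C1, hC1⟩ : ∃ C1 : ℝ, ∀ k : ℕ, (k : ℝ) + (k + 1) * (k + (2 * q ^ k + 1)) +
      3 * (2 * g.d) ^ s * φ ^ k ≤ C1 * ρ ^ k := by
    have h1 : Tendsto (fun k : ℕ => (k : ℝ) ^ 2 * (q / ρ) ^ k) atTop (nhds 0) := by
      apply tendsto_pow_const_mul_const_pow_of_abs_lt_one
      rw [abs_of_pos (by positivity), div_lt_one hρ0]; exact hqρ
    obtain ⟨M, hM⟩ := h1.bddAbove_range
    have hM' : ∀ k : ℕ, (k : ℝ) ^ 2 * q ^ k ≤ M * ρ ^ k := by
      intro k
      have h2 : (k : ℝ) ^ 2 * (q / ρ) ^ k ≤ M := hM ⟨k, rfl⟩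
      rw [div_pow, mul_div_assoc', div_le_iff₀ (by positivity)] at h2
      exact h2
    refine ⟨20 + 20 * M + 3 * (2 * g.d) ^ s, fun k => ?_⟩
    have h3 : φ ^ k ≤ ρ ^ k := pow_le_pow_left₀ hφ0 hφ.le k
    have h4 : 3 * (2 * (g.d : ℝ)) ^ s * φ ^ k ≤ 3 * (2 * g.d) ^ s * ρ ^ k :=
      mul_le_mul_of_nonneg_left h3 (by positivity)
    have h5 : (1 : ℝ) ≤ ρ ^ k := one_le_pow₀ hρ1.le
    have h6 : (1 : ℝ) ≤ q ^ k := one_le_pow₀ hq1.le
    have h6' : q ^ k ≤ ρ ^ k := pow_le_pow_left₀ hq0.le hqρ.le k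
    have h7 := hM' k
    rcases Nat.eq_zero_or_pos k with h0 | h0
    · subst h0
      simp only [Nat.cast_zero, pow_zero] at *
      have hM0 : 0 ≤ M := by linarith
      have : 0 ≤ (2 * (g.d : ℝ)) ^ s := by positivity
      nlinarith
    · have h8 : (1 : ℝ) ≤ k := by exact_mod_cast h0
      have h9 : (k : ℝ) ≤ k ^ 2 := by nlinarith
      have h10 : (k : ℝ) ^ 2 ≤ k ^ 2 * q ^ k := le_mul_of_one_le_right (by positivity) h6
      have h11 : (k : ℝ) + (k + 1) * (k + (2 * q ^ k + 1)) ≤ 20 * (k ^ 2 * q ^ k) := by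
        have e : (k : ℝ) + (k + 1) * (k + (2 * q ^ k + 1)) =
            k + (k + 1) * (k + 1) + 2 * (k + 1) * q ^ k := by ring
        rw [e]
        have b1 : ((k : ℝ) + 1) * (k + 1) ≤ 4 * (k ^ 2 * q ^ k) := by
          have : ((k : ℝ) + 1) * (k + 1) ≤ 4 * k ^ 2 := by nlinarith
          linarith
        have b2 : 2 * ((k : ℝ) + 1) * q ^ k ≤ 4 * (k ^ 2 * q ^ k) := by
          have : 2 * ((k : ℝ) + 1) ≤ 4 * k ^ 2 := by nlinarith
          have b3 := mul_le_mul_of_nonneg_right this (by positivity : 0 ≤ q ^ k)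
          linarith
        linarith
      nlinarith
  -- largeness
  obtain ⟨k0, hk0⟩ : ∃ k0 : ℕ, ∀ k : ℕ, k0 ≤ k → (k : ℝ) * (g.R * g.d / q ^ k) ≤ Real.log 2 := by
    have h1 : Tendsto (fun k : ℕ => g.R * g.d * ((k : ℝ) ^ 1 * (1 / q) ^ k)) atTop (nhds (g.R * g.d * 0)) := by
      apply Tendsto.const_mul
      apply tendsto_pow_const_mul_const_pow_of_abs_lt_one
      rw [abs_of_pos (by positivity), div_lt_one hq0]; exact hq1
    rw [mul_zero] at h1
    have h2 := h1.eventually (gt_mem_nhds (Real.log_pos (by norm_num : (1 : ℝ) < 2)))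
    obtain ⟨k0, hk0⟩ := eventually_atTop.1 h2
    refine ⟨k0, fun k hk => ?_⟩
    have h3 := (hk0 k hk).le
    refine le_trans (le_of_eq ?_) h3
    rw [pow_one, one_div, inv_pow]; ring
  set C0 : ℝ := 3 * (g.d : ℝ) ^ k0 with hC0
  set C : ℝ := C0 + |C1| / (1 - ρ⁻¹) + 1 with hCdef
  have hρinv : ρ⁻¹ < 1 := inv_lt_one_of_one_lt₀ hρ1
  have hρinv0 : 0 < ρ⁻¹ := by positivity
  have hden : 0 < 1 - ρ⁻¹ := by linarith
  have hCpos : 0 < C := by
    have : 0 ≤ |C1| / (1 - ρ⁻¹) := by positivity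
    have : 0 ≤ C0 := by positivity
    linarith
  have hmain : ∀ S : Set ℤ, Tame g.T S → ∀ k : ℕ, ((g.AS S k).card : ℝ) ≤ C * ρ ^ k := by
    intro S hS k
    induction k using Nat.strong_induction_on with
    | _ k ih =>
      have hρk : (1 : ℝ) ≤ ρ ^ k := one_le_pow₀ hρ1.le
      rcases le_or_gt k k0 with hk | hk
      · have h1 := g.AS_card_le S k
        have h2 : (g.d : ℝ) ^ k ≤ (g.d : ℝ) ^ k0 := pow_le_pow_right₀ (by linarith) hk
        have h3 : C0 ≤ C := by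
          have : 0 ≤ |C1| / (1 - ρ⁻¹) := by positivity
          linarith
        have h4 : ((g.AS S k).card : ℝ) ≤ C := by linarith
        nlinarith
      · have hr := g.rec_step hS k (by omega) (q ^ k) (by positivity) (hk0 k hk.le) s hs
        rw [← hφdef] at hr
        have hi := ih (k - 1) (by omega)
        have he := hC1 k
        have e : ρ ^ (k - 1) = ρ ^ k * ρ⁻¹ := by
          have : ρ ^ k = ρ ^ (k - 1) * ρ := by rw [← pow_succ]; congr 1; omega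
          rw [this]; field_simp
        rw [e] at hi
        have h5 : C1 ≤ C * (1 - ρ⁻¹) := by
          have h6 : C1 ≤ |C1| := le_abs_self _
          have h7 : |C1| = |C1| / (1 - ρ⁻¹) * (1 - ρ⁻¹) := (div_mul_cancel₀ _ hden.ne').symm
          have h8 : |C1| / (1 - ρ⁻¹) * (1 - ρ⁻¹) ≤ C * (1 - ρ⁻¹) := by
            apply mul_le_mul_of_nonneg_right _ hden.le
            have : 0 ≤ C0 := by positivity
            linarith
          linarith
        have h9 : C1 * ρ ^ k ≤ C * (1 - ρ⁻¹) * ρ ^ k := mul_le_mul_of_nonneg_right h5 (by positivity)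
        have h10 : C * (ρ ^ k * ρ⁻¹) + C * (1 - ρ⁻¹) * ρ ^ k = C * ρ ^ k := by ring
        linarith
  refine ⟨C * (g.d : ℝ) ^ η, by positivity, ?_⟩
  intro S hS X hX F hF
  obtain ⟨k, hk⟩ : ∃ k, k = Nat.log g.d ⌊X⌋₊ + 1 := ⟨_, rfl⟩
  have hd2 : 1 < g.d := g.two_le
  have hfl : ⌊X⌋₊ ≠ 0 := by
    have : 1 ≤ ⌊X⌋₊ := Nat.one_le_floor_iff _ |>.2 hX
    omega
  have hk1 : X < (g.d : ℝ) ^ k := by
    have h1 := Nat.lt_pow_succ_log_self (b := g.d) hd2 ⌊X⌋₊
    have h2 : ⌊X⌋₊ + 1 ≤ g.d ^ k := by rw [hk]; exact h1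
    have h3 : X < ⌊X⌋₊ + 1 := Nat.lt_floor_add_one X
    have h4 : ((⌊X⌋₊ + 1 : ℕ) : ℝ) ≤ ((g.d ^ k : ℕ) : ℝ) := by exact_mod_cast h2
    push_cast at h4
    linarith
  have hk2 : (g.d : ℝ) ^ k ≤ g.d * X := by
    have h1 := Nat.pow_log_le_self g.d hfl
    have h3 : (⌊X⌋₊ : ℝ) ≤ X := Nat.floor_le (by linarith)
    have h4 : ((g.d ^ Nat.log g.d ⌊X⌋₊ : ℕ) : ℝ) ≤ (⌊X⌋₊ : ℝ) := by exact_mod_cast h1
    push_cast at h4
    rw [hk, pow_succ, mul_comm]
    exact mul_le_mul_of_nonneg_left (h4.trans h3) hd0.le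
  have hsub : F ⊆ g.AS S k := by
    intro x hx
    rw [g.mem_AS]
    refine ⟨?_, (hF x hx).1⟩
    have : |(x : ℝ)| ≤ (g.d : ℝ) ^ k := (hF x hx).2.trans hk1.le
    exact_mod_cast this
  have h1 : (F.card : ℝ) ≤ (g.AS S k).card := by exact_mod_cast card_le_card hsub
  refine h1.trans ((hmain S hS k).trans ?_)
  rw [mul_assoc]
  apply mul_le_mul_of_nonneg_left _ hCpos.le
  rw [hρ, ← Real.mul_rpow hd0.le (by linarith), ← Real.rpow_natCast ((g.d : ℝ) ^ η) k,
    ← Real.rpow_mul hd0.le, mul_comm η, Real.rpow_mul hd0.le, Real.rpow_natCast]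
  exact Real.rpow_le_rpow (by positivity) hk2 (by linarith)

end GC

end Pool.Agent.H319R2.G
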