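import Mathlib
import Pool.Agent.H33.G.R_seed8.H319R2.GRigid

set_option autoImplicit false

/-!
Sparsity with a constant that does not depend on the remainders.
-/

namespace Pool.Agent.H319R2.G

open Finset Filter

namespace GC

variable (g : GC)

/-- the elements of an interval with large multiplier -/
theorem card_large' (Q : ℕ) (hQ : 1 ≤ Q) (k : ℕ) (c s : ℝ) (hc : 0 < c) (hs : 0 ≤ s) (F : Finset ℤ)
    (hF : ∀ x ∈ F, |x| ≤ Q * (g.d : ℤ) ^ k ∧ c < g.prod k x) :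
    (F.card : ℝ) ≤ 3 * Q * (1 / c) ^ s * (∑ i ∈ range g.d, g.a i ^ s) ^ k := by
  classical
  set W := (Fintype.piFinset (fun _ : Fin k => range g.d)).filter
    (fun w => c < ∏ j : Fin k, g.a (w j)) with hW
  have himg : F.image (g.it k) ⊆ W := by
    intro w hw
    rw [mem_image] at hw
    obtain ⟨x, hx, rfl⟩ := hw
    rw [hW, mem_filter]
    refine ⟨g.it_mem k x, ?_⟩
    rw [← g.prod_it]; exact (hF x hx).2
  have hdk : (0 : ℤ) < (g.d : ℤ) ^ k := pow_pos g.d_pos k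
  have hfib : F.card ≤ (3 * Q) * (F.image (g.it k)).card := by
    apply card_le_mul_card_image
    intro w hw
    rw [mem_image] at hw
    obtain ⟨x0, hx0, hw0⟩ := hw
    set Fw := F.filter (fun x => g.it k x = w) with hFw
    have hne : Fw.Nonempty := ⟨x0, by rw [hFw, mem_filter]; exact ⟨hx0, hw0⟩⟩
    set y := Fw.min' hne with hy
    have hymem : y ∈ Fw := Fw.min'_mem hne
    have hsub : Fw ⊆ (range (2 * Q + 1)).image (fun q : ℕ => y + q * (g.d : ℤ) ^ k) := by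
      intro x hx
      have hyx : y ≤ x := Fw.min'_le x hx
      have hx' := mem_filter.1 hx
      have hy' := mem_filter.1 hymem
      have hdiv : (g.d : ℤ) ^ k ∣ x - y := by
        apply g.same_it
        intro j hj
        have e1 := g.it_eq k x ⟨j, hj⟩
        have e2 := g.it_eq k y ⟨j, hj⟩
        rw [hx'.2] at e1
        rw [hy'.2] at e2
        rw [← e1, ← e2]
      obtain ⟨q, hq⟩ := hdiv
      have h1 := abs_le.1 (hF x hx'.1).1
      have h2 := abs_le.1 (hF y hy'.1).1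
      have hq0 : 0 ≤ q := by
        by_contra hneg
        have : q ≤ -1 := by omega
        nlinarith
      have hq2 : q ≤ 2 * Q := by
        by_contra hbig
        have h3 : 2 * (Q : ℤ) + 1 ≤ q := by omega
        have h4 : (g.d : ℤ) ^ k * (2 * Q + 1) ≤ (g.d : ℤ) ^ k * q :=
          mul_le_mul_of_nonneg_left h3 hdk.le
        nlinarith
      rw [mem_image]
      refine ⟨q.toNat, ?_, ?_⟩
      · rw [mem_range]; omega
      · rw [Int.toNat_of_nonneg hq0]
        linarith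
    refine (card_le_card hsub).trans (card_image_le.trans ?_)
    rw [card_range]; omega
  have hWc : (W.card : ℝ) ≤ (1 / c) ^ s * (∑ i ∈ range g.d, g.a i ^ s) ^ k := by
    have h1 : (∑ i ∈ range g.d, g.a i ^ s) ^ k =
        ∑ w ∈ Fintype.piFinset (fun _ : Fin k => range g.d), ∏ j : Fin k, g.a (w j) ^ s := by
      rw [← Finset.prod_univ_sum (fun _ : Fin k => range g.d) (fun _ i => g.a (i : ℤ) ^ s)]
      rw [prod_const, card_univ, Fintype.card_fin]
    have hpos : ∀ w ∈ Fintype.piFinset (fun _ : Fin k => range g.d), ∀ j : Fin k,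
        0 < g.a (w j) := by
      intro w hw j
      rw [Fintype.mem_piFinset] at hw
      have h2 := mem_range.1 (hw j)
      have h3 : ((w j : ℕ) : ℤ) % g.d = w j := Int.emod_eq_of_lt (by positivity) (by exact_mod_cast h2)
      rw [← h3]; exact g.a_pos _
    rw [h1, one_div, Real.inv_rpow hc.le, ← div_eq_inv_mul, le_div_iff₀ (Real.rpow_pos_of_pos hc s),
      ← nsmul_eq_mul]
    calc W.card • c ^ s ≤ ∑ w ∈ W, ∏ j : Fin k, g.a (w j) ^ s := by
          apply card_nsmul_le_sum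
          intro w hw
          rw [hW, mem_filter] at hw
          rw [Real.finsetProd_rpow _ _ (fun j _ => (hpos w hw.1 j).le)]
          exact Real.rpow_le_rpow hc.le hw.2.le hs
      _ ≤ _ := by
          apply sum_le_sum_of_subset_of_nonneg (filter_subset _ _)
          intro w hw _
          exact prod_nonneg fun j _ => (Real.rpow_pos_of_pos (hpos w hw j) s).le
  have h3 : (F.card : ℝ) ≤ 3 * Q * W.card := by
    exact_mod_cast hfib.trans (Nat.mul_le_mul_left _ (card_le_card himg))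
  calc (F.card : ℝ) ≤ 3 * Q * W.card := h3
    _ ≤ 3 * Q * ((1 / c) ^ s * (∑ i ∈ range g.d, g.a i ^ s) ^ k) :=
        mul_le_mul_of_nonneg_left hWc (by positivity)
    _ = _ := by ring

/-- elements of `S` of absolute value at most `Q d ^ k` -/
noncomputable def AQ (Q : ℕ) (S : Set ℤ) (k : ℕ) : Finset ℤ := by
  classical
  exact (Finset.Icc (-(Q * (g.d : ℤ) ^ k)) (Q * (g.d : ℤ) ^ k)).filter fun x => x ∈ S

theorem mem_AQ {Q : ℕ} {S : Set ℤ} {k : ℕ} {x : ℤ} :
    x ∈ g.AQ Q S k ↔ |x| ≤ Q * (g.d : ℤ) ^ k ∧ x ∈ S := by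
  classical
  unfold AQ
  rw [mem_filter, mem_Icc, abs_le]

theorem AQ_card_le (Q : ℕ) (hQ : 1 ≤ Q) (S : Set ℤ) (k : ℕ) :
    ((g.AQ Q S k).card : ℝ) ≤ 3 * Q * (g.d : ℝ) ^ k := by
  classical
  have h1 : (g.AQ Q S k).card ≤ 2 * (Q * g.d ^ k) + 1 := by
    unfold AQ
    refine (card_filter_le _ _).trans ?_
    rw [Int.card_Icc]
    have : (0 : ℤ) ≤ Q * (g.d : ℤ) ^ k := by positivity
    zify
    rw [Int.toNat_of_nonneg (by linarith)]
    linarith
  have h2 : ((g.AQ Q S k).card : ℝ) ≤ 2 * (Q * (g.d : ℝ) ^ k) + 1 := by exact_mod_cast h1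
  have h3 : (1 : ℝ) ≤ (g.d : ℝ) ^ k := one_le_pow₀ (by have := g.dr; linarith)
  have h4 : (1 : ℝ) ≤ Q := by exact_mod_cast hQ
  nlinarith

theorem rec_step' (Q : ℕ) (hQ : 1 ≤ Q) {S : Set ℤ} (hS : Tame g.T S) (k : ℕ) (hk1 : 1 ≤ k) (Y : ℝ)
    (hY : 0 < Y) (hkY : (k : ℝ) * (g.R * g.d / Y) ≤ Real.log 2) (s : ℝ) (hs : 0 ≤ s) :
    ((g.AQ Q S k).card : ℝ) ≤ (g.AQ Q S (k - 1)).card + k + (k + 1) * (k + (2 * Y + 1)) +
      3 * Q * (2 * g.d) ^ s * (∑ i ∈ range g.d, g.a i ^ s) ^ k := by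
  classical
  have hd := g.dr
  set c : ℝ := 1 / (2 * g.d) with hc
  have hc0 : 0 < c := by positivity
  set F := g.AQ Q S k with hF
  set F1 := (range (k + 1)).biUnion (fun j => F.filter (fun x => |((g.T^[j] x : ℤ) : ℝ)| < Y)) with hF1
  set F2 := F.filter (fun x => c < g.prod k x) with hF2
  set F3 := F.filter (fun x => (∀ j ≤ k, Y ≤ |((g.T^[j] x : ℤ) : ℝ)|) ∧ g.prod k x ≤ c) with hF3
  have hcover : F ⊆ (F1 ∪ F2) ∪ F3 := by
    intro x hx
    rw [mem_union, mem_union]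
    by_cases h1 : x ∈ F1
    · exact Or.inl (Or.inl h1)
    by_cases h2 : c < g.prod k x
    · exact Or.inl (Or.inr (by rw [hF2, mem_filter]; exact ⟨hx, h2⟩))
    · right
      rw [hF3, mem_filter]
      refine ⟨hx, ?_, not_lt.1 h2⟩
      intro j hj
      by_contra h3
      apply h1
      rw [hF1, mem_biUnion]
      exact ⟨j, by rw [mem_range]; omega, by rw [mem_filter]; exact ⟨hx, not_le.1 h3⟩⟩
  have hc1 : (F1.card : ℝ) ≤ (k + 1) * (k + (2 * Y + 1)) := by
    have h1 : F1.card ≤ ∑ j ∈ range (k + 1),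
        (F.filter (fun x => |((g.T^[j] x : ℤ) : ℝ)| < Y)).card := card_biUnion_le
    have h2 : (F1.card : ℝ) ≤ ∑ j ∈ range (k + 1),
        (((F.filter (fun x => |((g.T^[j] x : ℤ) : ℝ)| < Y)).card : ℕ) : ℝ) := by exact_mod_cast h1
    refine h2.trans ?_
    have h3 : ∀ j ∈ range (k + 1),
        (((F.filter (fun x => |((g.T^[j] x : ℤ) : ℝ)| < Y)).card : ℕ) : ℝ) ≤ k + (2 * Y + 1) := by
      intro j hj
      rw [mem_range] at hj
      obtain ⟨B, hB, hmap, hinj⟩ := hS j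
      set G := F.filter (fun x => |((g.T^[j] x : ℤ) : ℝ)| < Y) with hG
      have h4 : G ⊆ (G \ B) ∪ B := by
        intro x hx
        rw [mem_union, Finset.mem_sdiff]
        by_cases h : x ∈ B
        · exact Or.inr h
        · exact Or.inl ⟨hx, h⟩
      have h5 := (card_le_card h4).trans (card_union_le _ _)
      have h6 : ((G \ B).card : ℝ) ≤ 2 * Y + 1 := by
        have hio : Set.InjOn (g.T^[j]) (G \ B : Finset ℤ) := by
          intro x hx y hy hxy
          have hx := Finset.mem_sdiff.1 hx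
          have hy := Finset.mem_sdiff.1 hy
          exact hinj x (g.mem_AQ.1 (mem_filter.1 hx.1).1).2 y (g.mem_AQ.1 (mem_filter.1 hy.1).1).2
            hx.2 hy.2 hxy
        rw [← card_image_of_injOn hio]
        apply card_short Y hY
        intro y hy
        rw [mem_image] at hy
        obtain ⟨x, hx, rfl⟩ := hy
        exact (mem_filter.1 (Finset.mem_sdiff.1 hx).1).2
      have h7 : (G.card : ℝ) ≤ (G \ B).card + B.card := by exact_mod_cast h5
      have h8 : (B.card : ℝ) ≤ k := by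
        have : B.card ≤ k := hB.trans (by omega)
        exact_mod_cast this
      linarith
    refine (sum_le_sum h3).trans (le_of_eq ?_)
    rw [sum_const, card_range, nsmul_eq_mul]; push_cast; ring
  have hc2 : (F2.card : ℝ) ≤ 3 * Q * (2 * g.d) ^ s * (∑ i ∈ range g.d, g.a i ^ s) ^ k := by
    have h1 := g.card_large' Q hQ k c s hc0 hs F2 (by
      intro x hx
      rw [hF2, mem_filter] at hx
      exact ⟨(g.mem_AQ.1 hx.1).1, hx.2⟩)
    have h2 : 1 / c = 2 * g.d := by rw [hc, one_div_one_div]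
    rwa [h2] at h1
  have hc3 : (F3.card : ℝ) ≤ (g.AQ Q S (k - 1)).card + k := by
    obtain ⟨B, hB, hmap, hinj⟩ := hS k
    have h4 : F3 ⊆ (F3 \ B) ∪ B := by
      intro x hx
      rw [mem_union, Finset.mem_sdiff]
      by_cases h : x ∈ B
      · exact Or.inr h
      · exact Or.inl ⟨hx, h⟩
    have h5 := (card_le_card h4).trans (card_union_le _ _)
    have h6 : (F3 \ B).card ≤ (g.AQ Q S (k - 1)).card := by
      apply card_le_card_of_injOn (g.T^[k])
      · intro x hx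
        have hx := Finset.mem_sdiff.1 hx
        have hx' := mem_filter.1 hx.1
        obtain ⟨hx1, hx2⟩ := g.mem_AQ.1 hx'.1
        rw [mem_coe, g.mem_AQ]
        refine ⟨?_, hmap x hx2 hx.2⟩
        have h7 := g.iter_le Y hY k x (fun j hj => hx'.2.1 j hj.le)
        have h8 : Real.exp (k * (g.R * g.d / Y)) ≤ 2 := by
          calc Real.exp (k * (g.R * g.d / Y)) ≤ Real.exp (Real.log 2) := Real.exp_le_exp.2 hkY
            _ = 2 := Real.exp_log (by norm_num)
        have h9 : |(x : ℝ)| ≤ Q * (g.d : ℝ) ^ k := by exact_mod_cast hx1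
        have h10 : |((g.T^[k] x : ℤ) : ℝ)| ≤ Q * (g.d : ℝ) ^ (k - 1) := by
          have hp := g.prod_pos' k x
          calc |((g.T^[k] x : ℤ) : ℝ)| ≤ g.prod k x * |(x : ℝ)| * Real.exp (k * (g.R * g.d / Y)) := h7
            _ ≤ c * (Q * (g.d : ℝ) ^ k) * 2 := by
                apply mul_le_mul _ h8 (Real.exp_pos _).le (by positivity)
                exact mul_le_mul hx'.2.2 h9 (abs_nonneg _) hc0.le
            _ = Q * (g.d : ℝ) ^ (k - 1) := by
                have : (g.d : ℝ) ^ k = g.d ^ (k - 1) * g.d := by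
                  rw [← pow_succ]; congr 1; omega
                rw [this, hc]; field_simp
        exact_mod_cast h10
      · intro x hx y hy hxy
        have hx := Finset.mem_sdiff.1 hx
        have hy := Finset.mem_sdiff.1 hy
        exact hinj x (g.mem_AQ.1 (mem_filter.1 hx.1).1).2 y (g.mem_AQ.1 (mem_filter.1 hy.1).1).2
          hx.2 hy.2 hxy
    have h7 : F3.card ≤ (g.AQ Q S (k - 1)).card + k := by omega
    exact_mod_cast h7
  have h1 := (card_le_card hcover).trans (card_union_le _ _)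
  have h2 := card_union_le F1 F2
  have h3 : (F.card : ℝ) ≤ F1.card + F2.card + F3.card := by
    have : F.card ≤ F1.card + F2.card + F3.card := by omega
    exact_mod_cast this
  linarith

/-- **Uniform sparsity.** The constant depends only on the modulus and the multipliers. -/
theorem sparse_unif (g₀ : GC) (s η : ℝ) (hs : 0 ≤ s) (hη : 0 < η)
    (hφ : ∑ i ∈ range g₀.d, g₀.a i ^ s < (g₀.d : ℝ) ^ η) :
    ∃ C : ℝ, 0 < C ∧ ∀ g : GC, g.d = g₀.d → g.m = g₀.m → ∀ Q : ℕ, 1 ≤ Q → g.R ≤ Q →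
      ∀ S : Set ℤ, Tame g.T S → ∀ X : ℝ, Q ≤ X →
      ∀ F : Finset ℤ, (∀ x ∈ F, x ∈ S ∧ |(x : ℝ)| ≤ X) → (F.card : ℝ) ≤ C * Q * (X / Q) ^ η := by
  classical
  have hd := g₀.dr
  have hd0 : (0 : ℝ) < g₀.d := by linarith
  set φ := ∑ i ∈ range g₀.d, g₀.a i ^ s with hφdef
  set ρ : ℝ := (g₀.d : ℝ) ^ η with hρ
  have hρ0 : 0 < ρ := by positivity
  have hρ1 : 1 < ρ := Real.one_lt_rpow (by linarith) hη
  have hφ0 : 0 ≤ φ := by
    apply sum_nonneg
    intro i hi
    apply Real.rpow_nonneg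
    unfold a; positivity
  set L : ℝ := g₀.d / Real.log 2 with hL
  have hlog2 : 0 < Real.log 2 := Real.log_pos (by norm_num)
  have hL0 : 0 < L := by positivity
  -- the error terms are `O(Q ρ ^ k)`
  obtain ⟨M, hM⟩ : ∃ M : ℝ, ∀ k : ℕ, (k : ℝ) ^ 2 ≤ M * ρ ^ k := by
    have h1 : Tendsto (fun k : ℕ => (k : ℝ) ^ 2 * (1 / ρ) ^ k) atTop (nhds 0) := by
      apply tendsto_pow_const_mul_const_pow_of_abs_lt_one
      rw [abs_of_pos (by positivity), div_lt_one hρ0]; exact hρ1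
    obtain ⟨M, hM⟩ := h1.bddAbove_range
    refine ⟨M, fun k => ?_⟩
    have h2 : (k : ℝ) ^ 2 * (1 / ρ) ^ k ≤ M := hM ⟨k, rfl⟩
    rw [div_pow, one_pow, mul_one_div, div_le_iff₀ (by positivity)] at h2
    exact h2
  have hM0 : 0 ≤ M := by
    have := hM 0
    simp at this
    exact this
  set C1 : ℝ := 7 * M + 4 * L * M + 3 * (2 * g₀.d) ^ s with hC1def
  have hC10 : 0 ≤ C1 := by positivity
  have hρinv : ρ⁻¹ < 1 := inv_lt_one_of_one_lt₀ hρ1
  have hρinv0 : 0 < ρ⁻¹ := by positivity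
  have hden : 0 < 1 - ρ⁻¹ := by linarith
  set C : ℝ := 3 + C1 / (1 - ρ⁻¹) with hCdef
  have hCpos : 0 < C := by
    have : 0 ≤ C1 / (1 - ρ⁻¹) := by positivity
    linarith
  refine ⟨C * (g₀.d : ℝ) ^ η, by positivity, ?_⟩
  intro g hgd hgm Q hQ hRQ S hS X hX F hF
  have hQr : (1 : ℝ) ≤ Q := by exact_mod_cast hQ
  have hga : ∀ i : ℤ, g.a i = g₀.a i := by
    intro i; unfold a; rw [hgd, hgm]
  have hgφ : ∑ i ∈ range g.d, g.a i ^ s = φ := by
    rw [hφdef, hgd]; exact sum_congr rfl fun i _ => by rw [hga]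
  have hmain : ∀ k : ℕ, ((g.AQ Q S k).card : ℝ) ≤ C * Q * ρ ^ k := by
    intro k
    induction k with
    | zero =>
      have h1 := g.AQ_card_le Q hQ S 0
      rw [pow_zero, mul_one] at h1 ⊢
      have : 0 ≤ C1 / (1 - ρ⁻¹) := by positivity
      nlinarith
    | succ k ih =>
      set Y : ℝ := (k + 1) * (Q * L) with hY
      have hY0 : 0 < Y := by positivity
      have hkY : ((k + 1 : ℕ) : ℝ) * (g.R * g.d / Y) ≤ Real.log 2 := by
        have e : ((k + 1 : ℕ) : ℝ) * (g.R * g.d / Y) = g.R / Q * Real.log 2 := by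
          rw [hY, hL, hgd]; push_cast; field_simp
        rw [e]
        have : g.R / Q ≤ 1 := by rw [div_le_one (by linarith)]; exact hRQ
        nlinarith
      have hr := g.rec_step' Q hQ hS (k + 1) (by omega) Y hY0 hkY s hs
      rw [hgφ, Nat.add_sub_cancel, hgd] at hr
      set K : ℝ := ((k + 1 : ℕ) : ℝ) with hK
      have hK1 : 1 ≤ K := by rw [hK]; push_cast; linarith [(Nat.cast_nonneg k : (0 : ℝ) ≤ k)]
      have hKM := hM (k + 1)
      rw [← hK] at hKM
      have hφk : φ ^ (k + 1) ≤ ρ ^ (k + 1) := pow_le_pow_left₀ hφ0 hφ.le _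
      have hYK : Y = K * (Q * L) := by rw [hY, hK]; push_cast; ring
      rw [hYK] at hr
      have hQL : 0 < Q * L := by positivity
      have b1 : K + (K + 1) * (K + (2 * (K * (Q * L)) + 1)) ≤ (7 + 4 * L) * Q * K ^ 2 := by
        have e : K + (K + 1) * (K + (2 * (K * (Q * L)) + 1)) =
            (K + (K + 1) ^ 2) + 2 * (K + 1) * K * (Q * L) := by ring
        rw [e]
        have c1 : K + (K + 1) ^ 2 ≤ 7 * K ^ 2 := by nlinarith
        have c2 : 7 * K ^ 2 ≤ 7 * Q * K ^ 2 := by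
          have := mul_le_mul_of_nonneg_right hQr (by positivity : 0 ≤ 7 * K ^ 2)
          linarith
        have c3 : 2 * (K + 1) * K ≤ 4 * K ^ 2 := by nlinarith
        have c4 : 2 * (K + 1) * K * (Q * L) ≤ 4 * K ^ 2 * (Q * L) :=
          mul_le_mul_of_nonneg_right c3 hQL.le
        have e2 : (7 + 4 * L) * Q * K ^ 2 = 7 * Q * K ^ 2 + 4 * K ^ 2 * (Q * L) := by ring
        linarith
      have b2 : (7 + 4 * L) * Q * K ^ 2 ≤ (7 + 4 * L) * Q * (M * ρ ^ (k + 1)) :=
        mul_le_mul_of_nonneg_left hKM (by positivity)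
      have b3 : 3 * Q * (2 * (g₀.d : ℝ)) ^ s * φ ^ (k + 1) ≤
          3 * Q * (2 * (g₀.d : ℝ)) ^ s * ρ ^ (k + 1) :=
        mul_le_mul_of_nonneg_left hφk (by positivity)
      have b4 : ((g.AQ Q S (k + 1)).card : ℝ) ≤ C * Q * ρ ^ k + C1 * Q * ρ ^ (k + 1) := by
        have e : C1 * Q * ρ ^ (k + 1) = (7 + 4 * L) * Q * (M * ρ ^ (k + 1)) +
            3 * Q * (2 * (g₀.d : ℝ)) ^ s * ρ ^ (k + 1) := by rw [hC1def]; ring
        rw [e]
        linarith
      have e3 : ρ ^ k = ρ ^ (k + 1) * ρ⁻¹ := by rw [pow_succ]; field_simp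
      rw [e3] at b4
      have h5 : C1 ≤ C * (1 - ρ⁻¹) := by
        have h7 : C1 = C1 / (1 - ρ⁻¹) * (1 - ρ⁻¹) := (div_mul_cancel₀ _ hden.ne').symm
        have h8 : C1 / (1 - ρ⁻¹) * (1 - ρ⁻¹) ≤ C * (1 - ρ⁻¹) := by
          apply mul_le_mul_of_nonneg_right _ hden.le
          linarith
        linarith
      have h9 : C1 * (Q * ρ ^ (k + 1)) ≤ C * (1 - ρ⁻¹) * (Q * ρ ^ (k + 1)) :=
        mul_le_mul_of_nonneg_right h5 (by positivity)
      nlinarith
  obtain ⟨Z, hZ⟩ : ∃ Z, Z = X / Q := ⟨_, rfl⟩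
  have hQ0 : (0 : ℝ) < Q := by linarith
  have hZ1 : 1 ≤ Z := by rw [hZ, le_div_iff₀ hQ0, one_mul]; exact hX
  have hXZ : X = Q * Z := by rw [hZ]; field_simp
  obtain ⟨k, hk⟩ : ∃ k, k = Nat.log g.d ⌊Z⌋₊ + 1 := ⟨_, rfl⟩
  have hd2 : 1 < g.d := g.two_le
  have hgd0 : (0 : ℝ) < g.d := by have := g.dr; linarith
  have hfl : ⌊Z⌋₊ ≠ 0 := by
    have : 1 ≤ ⌊Z⌋₊ := Nat.one_le_floor_iff _ |>.2 hZ1
    omega
  have hk1 : Z < (g.d : ℝ) ^ k := by
    have h1 := Nat.lt_pow_succ_log_self (b := g.d) hd2 ⌊Z⌋₊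
    have h2 : ⌊Z⌋₊ + 1 ≤ g.d ^ k := by rw [hk]; exact h1
    have h3 : Z < ⌊Z⌋₊ + 1 := Nat.lt_floor_add_one Z
    have h4 : ((⌊Z⌋₊ + 1 : ℕ) : ℝ) ≤ ((g.d ^ k : ℕ) : ℝ) := by exact_mod_cast h2
    push_cast at h4
    linarith
  have hk2 : (g.d : ℝ) ^ k ≤ g.d * Z := by
    have h1 := Nat.pow_log_le_self g.d hfl
    have h3 : (⌊Z⌋₊ : ℝ) ≤ Z := Nat.floor_le (by linarith)
    have h4 : ((g.d ^ Nat.log g.d ⌊Z⌋₊ : ℕ) : ℝ) ≤ (⌊Z⌋₊ : ℝ) := by exact_mod_cast h1
    push_cast at h4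
    rw [hk, pow_succ, mul_comm]
    exact mul_le_mul_of_nonneg_left (h4.trans h3) hgd0.le
  have hsub : F ⊆ g.AQ Q S k := by
    intro x hx
    rw [g.mem_AQ]
    refine ⟨?_, (hF x hx).1⟩
    have : |(x : ℝ)| ≤ Q * (g.d : ℝ) ^ k := by
      refine (hF x hx).2.trans ?_
      rw [hXZ]
      exact mul_le_mul_of_nonneg_left hk1.le hQ0.le
    exact_mod_cast this
  have h1 : (F.card : ℝ) ≤ (g.AQ Q S k).card := by exact_mod_cast card_le_card hsub
  refine h1.trans ((hmain k).trans ?_)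
  rw [← hZ]
  have h2 : ρ ^ k ≤ (g₀.d : ℝ) ^ η * Z ^ η := by
    rw [hρ, ← Real.mul_rpow hd0.le (by linarith), ← Real.rpow_natCast ((g₀.d : ℝ) ^ η) k,
      ← Real.rpow_mul hd0.le, mul_comm η, Real.rpow_mul hd0.le, Real.rpow_natCast]
    rw [hgd] at hk2
    exact Real.rpow_le_rpow (by positivity) hk2 (by linarith)
  calc C * Q * ρ ^ k ≤ C * Q * ((g₀.d : ℝ) ^ η * Z ^ η) :=
        mul_le_mul_of_nonneg_left h2 (by positivity)
    _ = C * (g₀.d : ℝ) ^ η * Q * Z ^ η := by ring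

end GC

end Pool.Agent.H319R2.G
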