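import Mathlib
import Pool.Agent.H33.G.R_seed8.H319R2.GUnif
import Pool.Agent.H33.G.R_seed8.H319R2.Sparse
import Pool.Agent.H33.G.R_seed8.H319R2.Bohr

set_option autoImplicit false

/-!
The `3x+k` maps: sparsity and rigidity, uniformly in `k`.
-/

namespace Pool.Agent.H319R2.Tk

open Finset Filter Pool.Agent.H319R2.G

/-- the `3x+k` map -/
def T (k : ℤ) (x : ℤ) : ℤ := if x % 2 = 0 then x / 2 else (3 * x + k) / 2

/-- number of odd elements among the first `n` elements of the orbit of `x` -/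
def od (k : ℤ) (n : ℕ) (x : ℤ) : ℕ := ((range n).filter fun j => ((T k)^[j] x) % 2 = 1).card

/-- the generalised Collatz map -/
def gc (k : ℤ) (hk : k % 2 = 1) : GC where
  d := 2
  m := fun i => if i = 0 then 1 else 3
  r := fun i => if i = 0 then 0 else -k
  two_le := le_rfl
  cop := by
    intro i _ _
    split_ifs
    · exact isCoprime_one_left
    · exact Int.isCoprime_iff_gcd_eq_one.2 (by norm_num)
  dvd := by
    intro i h0 h1
    have h2 : i = 0 ∨ i = 1 := by push_cast at h1; omega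
    rcases h2 with h2 | h2
    · subst h2; simp
    · subst h2
      simp only [one_ne_zero, if_false]
      push_cast
      omega

theorem gc_T (k : ℤ) (hk : k % 2 = 1) : (gc k hk).T = T k := by
  funext x
  unfold GC.T T
  have e : (gc k hk).d = 2 := rfl
  rw [e]
  push_cast
  rcases Int.emod_two_eq_zero_or_one x with h | h
  · rw [h, if_pos rfl]; simp [gc]
  · rw [h, if_neg (by norm_num)]
    simp [gc]

theorem gc_a_zero (k : ℤ) (hk : k % 2 = 1) : (gc k hk).a 0 = 1 / 2 := by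
  unfold GC.a; simp [gc]

theorem gc_a_one (k : ℤ) (hk : k % 2 = 1) : (gc k hk).a 1 = 3 / 2 := by
  unfold GC.a; simp [gc]

theorem gc_R (k : ℤ) (hk : k % 2 = 1) : (gc k hk).R = |(k : ℝ)| := by
  unfold GC.R
  have e : (gc k hk).d = 2 := rfl
  rw [e, sum_range_succ, sum_range_succ, range_zero, sum_empty]
  simp [gc]

theorem gc_lg (k : ℤ) (hk : k % 2 = 1) (n : ℕ) (x : ℤ) : (gc k hk).lg n x =
    od k n x * Real.log 3 - n * Real.log 2 := by
  induction n with
  | zero => simp [GC.lg, od]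
  | succ n ih =>
    have e1 : (gc k hk).lg (n + 1) x = (gc k hk).lg n x +
        Real.log ((gc k hk).a (((gc k hk).T^[n] x) % (gc k hk).d)) := by
      unfold GC.lg; rw [sum_range_succ]
    have e : (((gc k hk).d : ℕ) : ℤ) = 2 := rfl
    rw [e1, ih, gc_T, e]
    unfold od
    rw [range_add_one, filter_insert]
    rcases Int.emod_two_eq_zero_or_one ((T k)^[n] x) with h | h
    · rw [if_neg (by omega), h, gc_a_zero, Real.log_div one_ne_zero two_ne_zero, Real.log_one]
      push_cast; ring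
    · rw [if_pos h, card_insert_of_notMem (by simp), h, gc_a_one,
        Real.log_div three_ne_zero two_ne_zero]
      push_cast; ring

/-- the critical exponent -/
theorem cond (η : ℝ) (hη : beta < η) : ∃ s : ℝ, 0 ≤ s ∧
    (1 / 2 : ℝ) ^ s + (3 / 2 : ℝ) ^ s < 2 ^ η := by
  have hl2 : 0 < Real.log 2 := Real.log_pos (by norm_num)
  have hl3 : 0 < Real.log 3 := Real.log_pos (by norm_num)
  set θ : ℝ := Real.log 2 / Real.log 3 with hθ
  have hθ0 : 0 < θ := by positivity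
  have hθ1 : θ < 1 := by
    rw [hθ, div_lt_one hl3]; exact Real.log_lt_log (by norm_num) (by norm_num)
  have hθ2 : 1 / 2 < θ := by
    rw [hθ, div_lt_div_iff₀ (by norm_num) hl3]
    have h : Real.log 3 < Real.log ((2 : ℝ) ^ 2) := Real.log_lt_log (by norm_num) (by norm_num)
    rw [Real.log_pow] at h
    push_cast at h; linarith
  have h1θ : 0 < 1 - θ := by linarith
  set s : ℝ := Real.log (θ / (1 - θ)) / Real.log 3 with hs
  have hrat : 1 ≤ θ / (1 - θ) := by rw [le_div_iff₀ h1θ]; linarith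
  have hrat0 : 0 < θ / (1 - θ) := by positivity
  have hs0 : 0 ≤ s := div_nonneg (Real.log_nonneg hrat) hl3.le
  refine ⟨s, hs0, ?_⟩
  have h3s : (3 : ℝ) ^ s = θ / (1 - θ) := by
    rw [Real.rpow_def_of_pos (by norm_num), hs, mul_div_cancel₀ _ hl3.ne', Real.exp_log hrat0]
  have hsum : (1 / 2 : ℝ) ^ s + (3 / 2 : ℝ) ^ s = (1 / (1 - θ)) / 2 ^ s := by
    rw [Real.div_rpow (by norm_num) (by norm_num), Real.div_rpow (by norm_num) (by norm_num),
      Real.one_rpow, h3s, ← add_div]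
    congr 1
    field_simp
    ring
  have h2s : (2 : ℝ) ^ s = Real.exp (θ * Real.log (θ / (1 - θ))) := by
    rw [Real.rpow_def_of_pos (by norm_num), hs, hθ]
    congr 1
    field_simp
  have hval : (1 / (1 - θ)) / 2 ^ s = 2 ^ beta := by
    rw [h2s, Real.rpow_def_of_pos (by norm_num : (0 : ℝ) < 2)]
    have e1 : 1 / (1 - θ) = Real.exp (-Real.log (1 - θ)) := by
      rw [Real.exp_neg, Real.exp_log h1θ, one_div]
    rw [e1, ← Real.exp_sub]
    congr 1
    unfold beta
    rw [mul_div_cancel₀ _ hl2.ne', ← hθ, Real.binEntropy, Real.log_div hθ0.ne' h1θ.ne',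
      Real.log_inv, Real.log_inv]
    ring
  rw [hsum, hval]
  exact Real.rpow_lt_rpow_of_exponent_lt (by norm_num) hη

/-- **Sparsity, uniformly in `k`** -/
theorem sparse (η : ℝ) (hη : beta < η) (hη1 : η < 1) : ∃ A : ℝ, 0 < A ∧ ∀ k : ℤ, k % 2 = 1 →
    ∀ S : Set ℤ, G.Tame (T k) S → ∀ X : ℝ, 1 ≤ X → ∀ F : Finset ℤ,
      (∀ x ∈ F, x ∈ S ∧ |(x : ℝ)| ≤ X) → (F.card : ℝ) ≤ A * |(k : ℝ)| ^ (1 - η) * X ^ η := by
  obtain ⟨s, hs, hcond⟩ := cond η hη
  have hη0 : 0 < η := lt_trans (lt_trans (by norm_num) beta_gt) hη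
  obtain ⟨C, hC0, hC⟩ := GC.sparse_unif (gc 1 rfl) s η hs hη0 (by
    have e : (gc 1 rfl).d = 2 := rfl
    rw [e, sum_range_succ, sum_range_succ, range_zero, sum_empty, zero_add, Nat.cast_zero,
      gc_a_zero, Nat.cast_one, gc_a_one]
    exact_mod_cast hcond)
  refine ⟨max C 3, lt_max_of_lt_left hC0, ?_⟩
  intro k hk S hS X hX F hF
  have hk0 : k ≠ 0 := by rintro rfl; simp at hk
  have hk1 : (1 : ℝ) ≤ |(k : ℝ)| := by
    have : (1 : ℤ) ≤ |k| := Int.one_le_abs hk0
    exact_mod_cast this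
  have hkpos : (0 : ℝ) < |(k : ℝ)| := by linarith
  have hX0 : 0 < X := by linarith
  rcases le_total |(k : ℝ)| X with h | h
  · have hQ : ((k.natAbs : ℕ) : ℝ) = |(k : ℝ)| := by
      rw [Nat.cast_natAbs]; push_cast; rfl
    have h1 := hC (gc k hk) rfl rfl k.natAbs (Int.natAbs_pos.2 hk0) (by rw [gc_R, hQ]) S
      (by rw [gc_T]; exact hS) X (by rw [hQ]; exact h) F hF
    rw [hQ] at h1
    have e : C * |(k : ℝ)| * (X / |(k : ℝ)|) ^ η = C * |(k : ℝ)| ^ (1 - η) * X ^ η := by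
      rw [Real.div_rpow hX0.le hkpos.le, Real.rpow_sub hkpos, Real.rpow_one]
      field_simp
    rw [e] at h1
    refine h1.trans ?_
    apply mul_le_mul_of_nonneg_right _ (by positivity)
    exact mul_le_mul_of_nonneg_right (le_max_left _ _) (by positivity)
  · have h1 : (F.card : ℝ) ≤ 2 * X + 1 := by
      have hsub : F ⊆ Finset.Icc (-⌊X⌋) ⌊X⌋ := by
        intro y hy
        have h := abs_le.1 (hF y hy).2
        rw [mem_Icc]
        constructor
        · rw [neg_le]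
          apply Int.le_floor.2
          push_cast; linarith
        · apply Int.le_floor.2; linarith
      have h1 := card_le_card hsub
      rw [Int.card_Icc] at h1
      have h2 : (0 : ℤ) ≤ ⌊X⌋ := Int.floor_nonneg.2 hX0.le
      have h3 : ((⌊X⌋ + 1 - -⌊X⌋).toNat : ℝ) = 2 * ⌊X⌋ + 1 := by
        have : ((⌊X⌋ + 1 - -⌊X⌋).toNat : ℤ) = 2 * ⌊X⌋ + 1 := by
          rw [Int.toNat_of_nonneg (by linarith)]; ring
        exact_mod_cast this
      have h4 : (F.card : ℝ) ≤ ((⌊X⌋ + 1 - -⌊X⌋).toNat : ℝ) := by exact_mod_cast h1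
      rw [h3] at h4
      have := Int.floor_le X
      linarith
    have h2 : X = X ^ (1 - η) * X ^ η := by
      rw [← Real.rpow_add hX0]; simp
    have h3 : X ^ (1 - η) ≤ |(k : ℝ)| ^ (1 - η) := Real.rpow_le_rpow hX0.le h (by linarith)
    have h4 : X ≤ |(k : ℝ)| ^ (1 - η) * X ^ η := by
      calc X = X ^ (1 - η) * X ^ η := h2
        _ ≤ _ := mul_le_mul_of_nonneg_right h3 (by positivity)
    calc (F.card : ℝ) ≤ 3 * X := by linarith
      _ ≤ max C 3 * X := mul_le_mul_of_nonneg_right (le_max_right _ _) hX0.le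
      _ ≤ max C 3 * (|(k : ℝ)| ^ (1 - η) * X ^ η) :=
          mul_le_mul_of_nonneg_left h4 (by positivity)
      _ = _ := by ring

/-- **Rigidity, uniformly in `k`** -/
theorem rigid (η : ℝ) (hη : beta < η) (hη1 : η < 1) : ∃ A : ℝ, 0 < A ∧ ∀ k : ℤ, k % 2 = 1 →
    ∀ (x : ℤ) (n : ℕ), Set.InjOn (fun i => (T k)^[i] x) (Set.Iio n) → ∀ N : ℝ,
      2 * |(k : ℝ)| + 1 ≤ N → (∀ j < n, N ≤ |(((T k)^[j] x : ℤ) : ℝ)|) →
      |Real.log |(((T k)^[n] x : ℤ) : ℝ)| - Real.log |(x : ℝ)| -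
        (od k n x * Real.log 3 - n * Real.log 2)| ≤ A * |(k : ℝ)| * (|(k : ℝ)| / N) ^ (1 - η) := by
  obtain ⟨C, hC0, hC⟩ := sparse η hη hη1
  have hη0 : 0 < η := lt_trans (lt_trans (by norm_num) beta_gt) hη
  have hρ1 : (2 : ℝ) ^ (η - 1) < 1 := Real.rpow_lt_one_of_one_lt_of_neg (by norm_num) (by linarith)
  have hρ0 : (0 : ℝ) < 1 - 2 ^ (η - 1) := by linarith
  refine ⟨2 * (C * 2 ^ η / (1 - 2 ^ (η - 1))), by positivity, ?_⟩
  intro k hk x n hinj N hN hmin
  have hk0 : k ≠ 0 := by rintro rfl; simp at hk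
  have hkpos : (0 : ℝ) < |(k : ℝ)| := abs_pos.2 (by exact_mod_cast hk0)
  set κ : ℝ := |(k : ℝ)| with hκ
  have hN1 : 1 ≤ N := by linarith
  have hN0 : 0 < N := by linarith
  have h1 := (gc k hk).log_iter_sum x n (by
    intro j hj
    rw [gc_R, gc_T]
    exact hN.trans (hmin j hj))
  rw [gc_R, gc_T, gc_lg] at h1
  have h2 := recip_of_sparse η (C * κ ^ (1 - η)) hη0 hη1 (by positivity) _
    (hC k hk _ (G.tame_path (T k) x n hinj)) N hN1
    ((range n).image fun i => (T k)^[i] x) (by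
      intro y hy
      rw [mem_image] at hy
      obtain ⟨i, hi, rfl⟩ := hy
      rw [mem_range] at hi
      exact ⟨⟨i, hi, rfl⟩, hmin i hi⟩)
  rw [sum_image (by
    intro i hi j hj hij
    exact hinj (by simpa using hi) (by simpa using hj) hij)] at h2
  have h3 := mul_le_mul_of_nonneg_left h2 (by positivity : 0 ≤ 2 * κ)
  refine h1.trans (h3.trans (le_of_eq ?_))
  have e : N ^ (η - 1) * κ ^ (1 - η) = (κ / N) ^ (1 - η) := by
    rw [Real.div_rpow hkpos.le hN0.le, show η - 1 = -(1 - η) by ring, Real.rpow_neg hN0.le]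
    field_simp
  rw [← e]; ring

/-- **Rigidity of cycles, uniformly in `k` and in the length** -/
theorem cycle_rigid (η : ℝ) (hη : beta < η) (hη1 : η < 1) : ∃ A : ℝ, 0 < A ∧ ∀ k : ℤ, k % 2 = 1 →
    ∀ (x : ℤ) (p : ℕ), p = Function.minimalPeriod (T k) x → 0 < p → ∀ N : ℝ,
      2 * |(k : ℝ)| + 1 ≤ N → (∀ j, N ≤ |(((T k)^[j] x : ℤ) : ℝ)|) →
      |p * Real.log 2 - od k p x * Real.log 3| ≤ A * |(k : ℝ)| * (|(k : ℝ)| / N) ^ (1 - η) := by
  obtain ⟨C, hC0, hC⟩ := rigid η hη hη1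
  refine ⟨C, hC0, ?_⟩
  intro k hk x p hp hp0 N hN hmin
  have hinj : Set.InjOn (fun i => (T k)^[i] x) (Set.Iio p) := by
    rw [hp]; exact Function.iterate_injOn_Iio_minimalPeriod
  have h := hC k hk x p hinj N hN (fun j _ => hmin j)
  have hper : (T k)^[p] x = x := by
    rw [hp]; exact Function.iterate_minimalPeriod
  rw [hper, sub_self, zero_sub, abs_neg, abs_sub_comm] at h
  exact h

end Pool.Agent.H319R2.Tk
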