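import Mathlib
import Pool.Agent.H33.G.R_seed8.H377R2.Stuck

set_option autoImplicit false

/-!
Concentration of the number of odd steps, and the pull-back of the exceptional sets by first
passage (using `Pool.Agent.H377R2.card_passage`).
-/

namespace Pool.Agent.H319R2.Lln

open Finset Pool.Agent.Helper894.Collatz Pool.Agent.H377R2

theorem half_exp_le (t : ℝ) : (1 + Real.exp t) / 2 ≤ Real.exp (t / 2 + t ^ 2 / 8) := by
  have h := Real.cosh_le_exp_half_sq (t / 2)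
  have e : (1 + Real.exp t) / 2 = Real.exp (t / 2) * Real.cosh (t / 2) := by
    rw [Real.cosh_eq]
    have h1 : Real.exp (t / 2) * Real.exp (t / 2) = Real.exp t := by
      rw [← Real.exp_add]; congr 1; ring
    have h2 : Real.exp (t / 2) * Real.exp (-(t / 2)) = 1 := by
      rw [← Real.exp_add]; simp
    calc (1 + Real.exp t) / 2
        = (Real.exp (t / 2) * Real.exp (-(t / 2)) + Real.exp (t / 2) * Real.exp (t / 2)) / 2 := by
          rw [h1, h2]
      _ = _ := by ring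
  rw [e, Real.exp_add]
  apply mul_le_mul_of_nonneg_left _ (Real.exp_pos _).le
  refine h.trans (le_of_eq ?_)
  congr 1; ring

/-- two-sided tail: `σ = 1` or `σ = -1` -/
theorem tail (i s : ℕ) (hs : s ≤ i) (ε σ : ℝ) (hε : 0 ≤ ε) (hσ : σ ^ 2 = 1) :
    ((((range (2 ^ i)).filter fun y => ε * s ≤ σ * ((od s y : ℝ) - s / 2)).card : ℕ) : ℝ) ≤
      2 ^ i * Real.exp (-(2 * ε ^ 2 * s)) := by
  obtain ⟨c, rfl⟩ := Nat.exists_eq_add_of_le hs
  set F := (range (2 ^ (s + c))).filter fun y => ε * s ≤ σ * ((od s y : ℝ) - s / 2) with hF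
  set z : ℝ := Real.exp (4 * ε * σ) with hz
  have hz0 : 0 < z := Real.exp_pos _
  have hsum : ∑ y ∈ range (2 ^ (s + c)), z ^ (od s y) = (2 ^ c : ℕ) * (1 + z) ^ s := by
    rw [pow_add]; exact sum_pow_od_block s (2 ^ c) z
  have h1 : ∀ y ∈ F, Real.exp (4 * ε ^ 2 * s + 2 * ε * σ * s) ≤ z ^ (od s y) := by
    intro y hy
    rw [hF, mem_filter] at hy
    rw [hz, ← Real.exp_nat_mul]
    apply Real.exp_le_exp.2
    have := mul_le_mul_of_nonneg_left hy.2 (by linarith : 0 ≤ 4 * ε)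
    nlinarith
  have h2 : (F.card : ℝ) * Real.exp (4 * ε ^ 2 * s + 2 * ε * σ * s) ≤ (2 ^ c : ℕ) * (1 + z) ^ s := by
    rw [← hsum, ← nsmul_eq_mul, ← sum_const]
    refine (sum_le_sum h1).trans ?_
    apply sum_le_sum_of_subset_of_nonneg (filter_subset _ _)
    intro y _ _; positivity
  have h3 : (1 + z) ^ s ≤ 2 ^ s * Real.exp (s * (2 * ε * σ + 2 * ε ^ 2)) := by
    have h4 := half_exp_le (4 * ε * σ)
    rw [← hz] at h4
    have h5 : 1 + z ≤ 2 * Real.exp (2 * ε * σ + 2 * ε ^ 2) := by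
      have e : 4 * ε * σ / 2 + (4 * ε * σ) ^ 2 / 8 = 2 * ε * σ + 2 * ε ^ 2 * σ ^ 2 := by ring
      rw [e, hσ, mul_one] at h4
      linarith
    calc (1 + z) ^ s ≤ (2 * Real.exp (2 * ε * σ + 2 * ε ^ 2)) ^ s :=
          pow_le_pow_left₀ (by linarith) h5 s
      _ = _ := by rw [mul_pow, ← Real.exp_nat_mul]
  have h6 : (F.card : ℝ) * Real.exp (4 * ε ^ 2 * s + 2 * ε * σ * s) ≤
      2 ^ (s + c) * Real.exp (-(2 * ε ^ 2 * s)) * Real.exp (4 * ε ^ 2 * s + 2 * ε * σ * s) := by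
    refine h2.trans ?_
    have h7 : ((2 ^ c : ℕ) : ℝ) * (1 + z) ^ s ≤
        2 ^ c * (2 ^ s * Real.exp (s * (2 * ε * σ + 2 * ε ^ 2))) := by
      push_cast
      exact mul_le_mul_of_nonneg_left h3 (by positivity)
    refine h7.trans (le_of_eq ?_)
    have e : Real.exp (-(2 * ε ^ 2 * s)) * Real.exp (4 * ε ^ 2 * s + 2 * ε * σ * s) =
        Real.exp (s * (2 * ε * σ + 2 * ε ^ 2)) := by
      rw [← Real.exp_add]; congr 1; ring
    rw [mul_assoc (2 ^ (s + c) : ℝ), e, pow_add]; ring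
  exact le_of_mul_le_mul_right h6 (Real.exp_pos _)

/-- exceptional set of level `i` -/
noncomputable def Bad (ε δ : ℝ) (i : ℕ) : Finset ℕ := by
  classical
  exact (range (2 ^ i)).filter fun y => 2 ^ i ≤ 2 * y ∧
    ∃ s ≤ i, δ * i ≤ s ∧ ε * s < |(od s y : ℝ) - s / 2|

theorem mem_Bad {ε δ : ℝ} {i y : ℕ} : y ∈ Bad ε δ i ↔ y < 2 ^ i ∧ 2 ^ i ≤ 2 * y ∧
    ∃ s ≤ i, δ * i ≤ s ∧ ε * s < |(od s y : ℝ) - s / 2| := by
  classical
  unfold Bad
  rw [mem_filter, mem_range]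

theorem card_Bad (ε δ : ℝ) (hε : 0 ≤ ε) (i : ℕ) :
    ((Bad ε δ i).card : ℝ) ≤ 2 * (i + 1) * 2 ^ i * Real.exp (-(2 * ε ^ 2 * δ * i)) := by
  classical
  have hsub : Bad ε δ i ⊆ ((range (i + 1)).filter (fun s : ℕ => δ * i ≤ s)).biUnion (fun s =>
      ((range (2 ^ i)).filter fun y => ε * s ≤ 1 * ((od s y : ℝ) - s / 2)) ∪
      ((range (2 ^ i)).filter fun y => ε * s ≤ (-1) * ((od s y : ℝ) - s / 2))) := by
    intro y hy
    rw [mem_Bad] at hy
    obtain ⟨h1, -, s, hs, hδ, h2⟩ := hy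
    rw [mem_biUnion]
    refine ⟨s, by rw [mem_filter, mem_range]; exact ⟨by omega, hδ⟩, ?_⟩
    rw [mem_union, mem_filter, mem_filter, mem_range]
    rcases abs_cases ((od s y : ℝ) - s / 2) with ⟨h3, _⟩ | ⟨h3, _⟩
    · left; refine ⟨h1, ?_⟩; rw [h3] at h2; linarith
    · right; refine ⟨h1, ?_⟩; rw [h3] at h2; linarith
  have h1 : ((Bad ε δ i).card : ℝ) ≤ ∑ s ∈ (range (i + 1)).filter (fun s : ℕ => δ * i ≤ s),
      2 * (2 ^ i * Real.exp (-(2 * ε ^ 2 * δ * i))) := by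
    have h2 := (card_le_card hsub).trans card_biUnion_le
    have h3 : ((Bad ε δ i).card : ℝ) ≤ ∑ s ∈ (range (i + 1)).filter (fun s : ℕ => δ * i ≤ s),
        (((((range (2 ^ i)).filter fun y => ε * s ≤ 1 * ((od s y : ℝ) - s / 2)) ∪
      ((range (2 ^ i)).filter fun y => ε * s ≤ (-1) * ((od s y : ℝ) - s / 2))).card : ℕ) : ℝ) := by
      exact_mod_cast h2
    refine h3.trans (sum_le_sum fun s hs => ?_)
    rw [mem_filter, mem_range] at hs
    have a1 := tail i s (by omega) ε 1 hε (by norm_num)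
    have a2 := tail i s (by omega) ε (-1) hε (by norm_num)
    have a3 : (((((range (2 ^ i)).filter fun y => ε * s ≤ 1 * ((od s y : ℝ) - s / 2)) ∪
      ((range (2 ^ i)).filter fun y => ε * s ≤ (-1) * ((od s y : ℝ) - s / 2))).card : ℕ) : ℝ) ≤
        ((((range (2 ^ i)).filter fun y => ε * s ≤ 1 * ((od s y : ℝ) - s / 2)).card : ℕ) : ℝ) +
        ((((range (2 ^ i)).filter fun y => ε * s ≤ (-1) * ((od s y : ℝ) - s / 2)).card : ℕ) : ℝ) := by
      exact_mod_cast card_union_le _ _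
    have a4 : Real.exp (-(2 * ε ^ 2 * s)) ≤ Real.exp (-(2 * ε ^ 2 * δ * i)) := by
      apply Real.exp_le_exp.2
      have : 2 * ε ^ 2 * (δ * i) ≤ 2 * ε ^ 2 * s := mul_le_mul_of_nonneg_left hs.2 (by positivity)
      linarith
    have a5 : (2 : ℝ) ^ i * Real.exp (-(2 * ε ^ 2 * s)) ≤ 2 ^ i * Real.exp (-(2 * ε ^ 2 * δ * i)) :=
      mul_le_mul_of_nonneg_left a4 (by positivity)
    linarith
  refine h1.trans ?_
  rw [sum_const, nsmul_eq_mul]
  have h4 : ((((range (i + 1)).filter (fun s : ℕ => δ * i ≤ s)).card : ℕ) : ℝ) ≤ i + 1 := by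
    have := card_filter_le (range (i + 1)) (fun s : ℕ => δ * i ≤ s)
    rw [card_range] at this
    exact_mod_cast this
  calc _ ≤ ((i : ℝ) + 1) * (2 * (2 ^ i * Real.exp (-(2 * ε ^ 2 * δ * i)))) :=
        mul_le_mul_of_nonneg_right h4 (by positivity)
    _ = _ := by ring

/-- the starting points which meet an exceptional set at a first passage -/
noncomputable def Exc (ε δ : ℝ) (k l M : ℕ) : Finset ℕ := by
  classical
  exact (range (2 ^ k)).filter fun n => 0 < n ∧ ∃ i, l < i ∧ i ≤ k ∧ ∃ m ≤ M, FP i m n ∧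
    T^[m] n ∈ Bad ε δ i

theorem card_Exc (ε δ : ℝ) (hε : 0 ≤ ε) (hδ : 0 ≤ δ) (k l M : ℕ) (hM : 2 * M ≤ 2 ^ l) :
    ((Exc ε δ k l M).card : ℝ) ≤
      8 * (k + 1) ^ 2 * (M + 2) ^ 2 * 2 ^ k * Real.exp (-(2 * ε ^ 2 * δ * l)) := by
  classical
  have hsub : Exc ε δ k l M ⊆ (Ioc l k).biUnion (fun i => (range (2 ^ k)).filter
      (fun x => 0 < x ∧ ∃ m ≤ M, FP i m x ∧ T^[m] x ∈ Bad ε δ i)) := by
    intro n hn
    unfold Exc at hn
    rw [mem_filter, mem_range] at hn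
    obtain ⟨h1, h2, i, h3, h4, h5⟩ := hn
    rw [mem_biUnion]
    exact ⟨i, mem_Ioc.2 ⟨h3, h4⟩, by rw [mem_filter, mem_range]; exact ⟨h1, h2, h5⟩⟩
  have h1 : ((Exc ε δ k l M).card : ℝ) ≤ ∑ i ∈ Ioc l k,
      8 * (k + 1) * (M + 2) ^ 2 * 2 ^ k * Real.exp (-(2 * ε ^ 2 * δ * l)) := by
    have h2 := (card_le_card hsub).trans card_biUnion_le
    have h3 : ((Exc ε δ k l M).card : ℝ) ≤ ∑ i ∈ Ioc l k, ((((range (2 ^ k)).filter
      (fun x => 0 < x ∧ ∃ m ≤ M, FP i m x ∧ T^[m] x ∈ Bad ε δ i)).card : ℕ) : ℝ) := by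
      exact_mod_cast h2
    refine h3.trans (sum_le_sum fun i hi => ?_)
    rw [mem_Ioc] at hi
    have hM' : 2 * M ≤ 2 ^ i := hM.trans (Nat.pow_le_pow_right (by norm_num) hi.1.le)
    have a1 := card_passage k i M hi.2 hM' (Bad ε δ i) (fun y hy => (mem_Bad.1 hy).2.1)
    have a2 := card_Bad ε δ hε i
    have a3 : ((((range (2 ^ k)).filter
      (fun x => 0 < x ∧ ∃ m ≤ M, FP i m x ∧ T^[m] x ∈ Bad ε δ i)).card : ℕ) : ℝ) ≤
        (Bad ε δ i).card * ((M + 1) * ((M + 2) * 2 ^ (k - i + 2))) := by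
      exact_mod_cast a1
    refine a3.trans ?_
    have a4 : (2 : ℝ) ^ i * 2 ^ (k - i + 2) = 4 * 2 ^ k := by
      rw [← pow_add]
      have : i + (k - i + 2) = k + 2 := by omega
      rw [this, pow_add]; ring
    have a5 : Real.exp (-(2 * ε ^ 2 * δ * i)) ≤ Real.exp (-(2 * ε ^ 2 * δ * l)) := by
      apply Real.exp_le_exp.2
      have h5 : (l : ℝ) ≤ i := by exact_mod_cast hi.1.le
      have := mul_le_mul_of_nonneg_left h5 (by positivity : 0 ≤ 2 * ε ^ 2 * δ)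
      linarith
    have a6 : (i : ℝ) + 1 ≤ k + 1 := by
      have : (i : ℝ) ≤ k := by exact_mod_cast hi.2
      linarith
    calc ((Bad ε δ i).card : ℝ) * ((M + 1) * ((M + 2) * 2 ^ (k - i + 2)))
        ≤ (2 * (i + 1) * 2 ^ i * Real.exp (-(2 * ε ^ 2 * δ * i))) *
            ((M + 2) * ((M + 2) * 2 ^ (k - i + 2))) := by
          apply mul_le_mul a2 _ (by positivity) (by positivity)
          apply mul_le_mul_of_nonneg_right _ (by positivity)
          linarith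
      _ ≤ (2 * (k + 1) * 2 ^ i * Real.exp (-(2 * ε ^ 2 * δ * l))) *
            ((M + 2) * ((M + 2) * 2 ^ (k - i + 2))) := by
          apply mul_le_mul_of_nonneg_right _ (by positivity)
          apply mul_le_mul _ a5 (Real.exp_pos _).le (by positivity)
          apply mul_le_mul_of_nonneg_right _ (by positivity)
          linarith
      _ = 2 * (k + 1) * Real.exp (-(2 * ε ^ 2 * δ * l)) * (M + 2) ^ 2 *
            (2 ^ i * 2 ^ (k - i + 2)) := by ring
      _ = _ := by rw [a4]; ring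
  refine h1.trans ?_
  rw [sum_const, nsmul_eq_mul, Nat.card_Ioc]
  have h5 : ((k - l : ℕ) : ℝ) ≤ k + 1 := by
    have : k - l ≤ k + 1 := by omega
    exact_mod_cast this
  calc ((k - l : ℕ) : ℝ) * (8 * (k + 1) * (M + 2) ^ 2 * 2 ^ k * Real.exp (-(2 * ε ^ 2 * δ * l)))
      ≤ (k + 1) * (8 * (k + 1) * (M + 2) ^ 2 * 2 ^ k * Real.exp (-(2 * ε ^ 2 * δ * l))) :=
        mul_le_mul_of_nonneg_right h5 (by positivity)
    _ = _ := by ring

end Pool.Agent.H319R2.Lln
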