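import Mathlib
import Pool.Agent.H33.G.R_seed8.H319R2.LlnBad

set_option autoImplicit false

/-!
One stage of the descent of a non-exceptional starting point.
-/

namespace Pool.Agent.H319R2.Lln

open Finset Pool.Agent.Helper894.Collatz Pool.Agent.H377R2

/-- the drift per step -/
noncomputable def mu : ℝ := Real.log (4 / 3) / 2

theorem mu_eq : mu = Real.log 2 - Real.log 3 / 2 := by
  unfold mu
  rw [Real.log_div (by norm_num) (by norm_num), show (4 : ℝ) = 2 ^ 2 by norm_num, Real.log_pow]
  push_cast; ring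

theorem log3_upper : Real.log 3 ≤ 27 / 17 * Real.log 2 := by
  have h : Real.log ((3 : ℝ) ^ 17) ≤ Real.log ((2 : ℝ) ^ 27) :=
    Real.log_le_log (by positivity) (by norm_num)
  rw [Real.log_pow, Real.log_pow] at h
  push_cast at h
  linarith

theorem log3_lower : 84 / 53 * Real.log 2 ≤ Real.log 3 := by
  have h : Real.log ((2 : ℝ) ^ 84) ≤ Real.log ((3 : ℝ) ^ 53) :=
    Real.log_le_log (by positivity) (by norm_num)
  rw [Real.log_pow, Real.log_pow] at h
  push_cast at h
  linarith

theorem mu_lower : 7 / 34 * Real.log 2 ≤ mu := by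
  rw [mu_eq]; have := log3_upper; linarith

theorem mu_upper : mu ≤ 11 / 53 * Real.log 2 := by
  rw [mu_eq]; have := log3_lower; linarith

theorem upper_pt {i s y : ℕ} (hs : s ≤ i) (hy : y < 2 ^ i) (hy0 : 0 < y) :
    Real.log (T^[s] y : ℕ) < od s y * Real.log 3 + (i - s) * Real.log 2 := by
  have h := lt_pow s y (2 ^ (i - s)) (by rw [← pow_add, Nat.add_sub_cancel' hs]; exact hy)
  have hp : 0 < T^[s] y := iter_pos hy0 s
  have h2 : Real.log (T^[s] y : ℕ) < Real.log ((3 : ℝ) ^ od s y * 2 ^ (i - s)) := by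
    apply Real.log_lt_log (by exact_mod_cast hp)
    exact_mod_cast h
  rw [Real.log_mul (by positivity) (by positivity), Real.log_pow, Real.log_pow,
    Nat.cast_sub hs] at h2
  exact h2

theorem lower_pt {i y : ℕ} (s : ℕ) (hy0 : 0 < y) (hy : 2 ^ i ≤ 2 * y) :
    od s y * Real.log 3 + (i - 1 - s) * Real.log 2 ≤ Real.log (T^[s] y : ℕ) := by
  have h := iter_eq s y
  have hp : 0 < T^[s] y := iter_pos hy0 s
  have h1 : 3 ^ od s y * 2 ^ i ≤ 2 * (2 ^ s * T^[s] y) := by
    rw [h]
    have := Nat.mul_le_mul_left (3 ^ od s y) hy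
    nlinarith [Nat.zero_le (er s y)]
  have h2 : Real.log ((3 : ℝ) ^ od s y * 2 ^ i) ≤ Real.log (2 * (2 ^ s * (T^[s] y : ℕ))) := by
    apply Real.log_le_log (by positivity)
    exact_mod_cast h1
  have hp' : (0 : ℝ) < (T^[s] y : ℕ) := by exact_mod_cast hp
  rw [Real.log_mul (by positivity) (by positivity), Real.log_mul (by positivity) (by positivity),
    Real.log_mul (by positivity) hp'.ne', Real.log_pow, Real.log_pow, Real.log_pow] at h2
  linarith

/-- one stage -/
theorem stage {η : ℝ} (h0 : 0 < η) (h1 : η ≤ 1 / 20) {i m n : ℕ} (hn : 0 < n)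
    (hi : 40 ≤ η ^ 2 * i) (hfp : FP i m n) (hy : 2 ^ i ≤ 2 * T^[m] n)
    (hb : T^[m] n ∉ Bad (mu * η / (4 * Real.log 3)) (η / 2) i) :
    ∃ r d : ℕ, 0 < r ∧ r ≤ i ∧ 0 < d ∧ d ≤ i ∧ FP (i - r) (m + d) n ∧
      2 ^ (i - r) ≤ 2 * T^[m + d] n ∧ |mu * d - r * Real.log 2| ≤ η * (r * Real.log 2) ∧
      ∀ d' ≤ d, |Real.log (T^[m + d'] n : ℕ) - i * Real.log 2| ≤ 3 * η * (i * Real.log 2) ∧
        mu * d' ≤ 2 * η * (i * Real.log 2) := by
  classical
  set L := Real.log 2 with hL
  have hL0 : 0 < L := Real.log_pos (by norm_num)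
  have h3 : 0 < Real.log 3 := Real.log_pos (by norm_num)
  have hμ1 := mu_lower
  have hμ2 := mu_upper
  rw [← hL] at hμ1 hμ2
  have hμ0 : 0 < mu := by linarith
  have hR := mu_eq
  rw [← hL] at hR
  have hRL : Real.log 3 ≤ 27 / 17 * L := log3_upper
  set ε : ℝ := mu * η / (4 * Real.log 3) with hε
  have hε3 : ε * Real.log 3 = mu * η / 4 := by rw [hε]; field_simp
  set y := T^[m] n with hydef
  have hylt : y < 2 ^ i := hfp.2
  have hy0 : 0 < y := iter_pos hn m
  -- basic size facts
  have hi1 : 40 ≤ η * (η * i) := by linarith [hi, show η ^ 2 * i = η * (η * i) by ring]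
  have hηi : 800 ≤ η * i := by nlinarith
  have hi2 : (16000 : ℝ) ≤ i := by nlinarith
  -- good times
  have hgood : ∀ s ≤ i, η / 2 * i ≤ s → |(od s y : ℝ) - s / 2| ≤ ε * s := by
    intro s hs hδ
    by_contra hcon
    exact hb (mem_Bad.2 ⟨hylt, hy, s, hs, hδ, not_le.1 hcon⟩)
  have hup : ∀ s ≤ i, η / 2 * i ≤ s →
      Real.log (T^[s] y : ℕ) < i * L - s * (mu * (1 - η / 4)) := by
    intro s hs hδ
    have a1 := upper_pt hs hylt hy0
    have a2 := (abs_le.1 (hgood s hs hδ)).2
    rw [← hL] at a1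
    have a3 := mul_le_mul_of_nonneg_right a2 h3.le
    have a4 : ε * s * Real.log 3 = s * (mu * η / 4) := by rw [← hε3]; ring
    rw [a4] at a3
    have a5 : s * (mu * (1 - η / 4)) = s * L - s * (Real.log 3 / 2) - s * (mu * η / 4) := by
      rw [hR]; ring
    rw [a5]
    nlinarith
  have hlo : ∀ s ≤ i, η / 2 * i ≤ s →
      (i - 1) * L - s * (mu * (1 + η / 4)) ≤ Real.log (T^[s] y : ℕ) := by
    intro s hs hδ
    have a1 := lower_pt s hy0 hy
    have a2 := (abs_le.1 (hgood s hs hδ)).1
    rw [← hL] at a1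
    have a3 := mul_le_mul_of_nonneg_right a2 h3.le
    have a4 : -(ε * s) * Real.log 3 = -(s * (mu * η / 4)) := by rw [← hε3]; ring
    rw [a4] at a3
    have a5 : s * (mu * (1 + η / 4)) = s * L - s * (Real.log 3 / 2) + s * (mu * η / 4) := by
      rw [hR]; ring
    rw [a5]
    nlinarith
  -- the step `r` of the levels
  obtain ⟨r, hr⟩ : ∃ r, r = ⌈η * i⌉₊ := ⟨_, rfl⟩
  have hr1 : η * i ≤ r := by rw [hr]; exact Nat.le_ceil _
  have hr2 : (r : ℝ) < η * i + 1 := by rw [hr]; exact Nat.ceil_lt_add_one (by positivity)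
  have hri : r ≤ i := by
    have : (r : ℝ) ≤ i := by nlinarith
    exact_mod_cast this
  have hr0 : 0 < r := by
    have : (0 : ℝ) < r := by linarith
    exact_mod_cast this
  -- the time bound
  set q : ℝ := r * L / (mu * (1 - η / 4)) with hq
  have hden : 0 < mu * (1 - η / 4) := by
    apply mul_pos hμ0; linarith
  have hqe : q * (mu * (1 - η / 4)) = r * L := by rw [hq]; exact div_mul_cancel₀ _ hden.ne'
  have hq0 : 0 ≤ q := by rw [hq]; positivity
  obtain ⟨t, ht⟩ : ∃ t, t = ⌈q⌉₊ := ⟨_, rfl⟩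
  have ht1 : q ≤ t := by rw [ht]; exact Nat.le_ceil _
  have ht2 : (t : ℝ) < q + 1 := by rw [ht]; exact Nat.ceil_lt_add_one hq0
  -- `4.8 r ≤ q ≤ 4.92 r`
  have hq1 : 4.8 * r ≤ q := by
    have a1 : mu * (1 - η / 4) ≤ 11 / 53 * L := by nlinarith
    have a2 : r * L ≤ q * (11 / 53 * L) := by
      rw [← hqe]; exact mul_le_mul_of_nonneg_left a1 hq0
    have a3 : (r : ℝ) ≤ q * (11 / 53) := by
      have : r * L ≤ q * (11 / 53) * L := by linarith
      exact le_of_mul_le_mul_right this hL0
    linarith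
  have hq2 : q ≤ 4.92 * r := by
    have a1 : 7 / 34 * L * (79 / 80) ≤ mu * (1 - η / 4) := by
      have : (79 : ℝ) / 80 ≤ 1 - η / 4 := by linarith
      have h5 : 0 ≤ 7 / 34 * L := by positivity
      calc 7 / 34 * L * (79 / 80) ≤ mu * (79 / 80) := by linarith
        _ ≤ mu * (1 - η / 4) := mul_le_mul_of_nonneg_left this hμ0.le
    have a2 : q * (7 / 34 * L * (79 / 80)) ≤ r * L := by
      rw [← hqe]; exact mul_le_mul_of_nonneg_left a1 hq0
    have a3 : q * (7 / 34 * (79 / 80)) ≤ r := by
      have : q * (7 / 34 * (79 / 80)) * L ≤ r * L := by linarith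
      exact le_of_mul_le_mul_right this hL0
    linarith
  have hti : t ≤ i := by
    have : (t : ℝ) ≤ i := by nlinarith
    exact_mod_cast this
  have htδ : η / 2 * i ≤ t := by nlinarith
  -- at time `t` the trajectory is below the new level
  have hTt : T^[t] y < 2 ^ (i - r) := by
    have a1 := hup t hti htδ
    have a2 : r * L ≤ t * (mu * (1 - η / 4)) := by
      rw [← hqe]; exact mul_le_mul_of_nonneg_right ht1 hden.le
    have a3 : Real.log (T^[t] y : ℕ) < Real.log ((2 : ℝ) ^ (i - r)) := by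
      rw [Real.log_pow, Nat.cast_sub hri, ← hL]; linarith
    have hp : (0 : ℝ) < (T^[t] y : ℕ) := by exact_mod_cast iter_pos hy0 t
    have a4 := (Real.log_lt_log_iff hp (by positivity)).1 a3
    exact_mod_cast a4
  have hex : ∃ d, T^[d] y < 2 ^ (i - r) := ⟨t, hTt⟩
  obtain ⟨d, hd⟩ : ∃ d, d = Nat.find hex := ⟨_, rfl⟩
  have hdt : d ≤ t := by rw [hd]; exact Nat.find_min' hex hTt
  have hdspec : T^[d] y < 2 ^ (i - r) := by rw [hd]; exact Nat.find_spec hex
  have hdmin : ∀ j < d, 2 ^ (i - r) ≤ T^[j] y := by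
    intro j hj; rw [hd] at hj; exact not_lt.1 (Nat.find_min hex hj)
  have hpow : 2 ^ (i - r) * 2 ≤ 2 ^ i := by
    rw [← pow_succ]; exact Nat.pow_le_pow_right (by norm_num) (by omega)
  have hd0 : 0 < d := by
    rcases Nat.eq_zero_or_pos d with h | h
    · rw [h] at hdspec
      simp only [Function.iterate_zero, id] at hdspec
      omega
    · exact h
  have hadd : ∀ j, T^[m + j] n = T^[j] y := by
    intro j; rw [hydef, ← Function.iterate_add_apply, add_comm]
  have hdi : (d : ℝ) ≤ t := by exact_mod_cast hdt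
  -- the previous point
  have hprev : 2 ^ (i - r) ≤ 2 * T^[d] y := by
    obtain ⟨e, rfl⟩ : ∃ e, d = e + 1 := ⟨d - 1, by omega⟩
    have h5 := hdmin e (by omega)
    rw [Function.iterate_succ_apply']
    rcases Nat.mod_two_eq_zero_or_one (T^[e] y) with h6 | h6
    · have := T_even h6; omega
    · have := T_odd h6; omega
  refine ⟨r, d, hr0, hri, hd0, hdt.trans hti, ⟨?_, ?_⟩, ?_, ?_, ?_⟩
  · intro j hj
    rcases Nat.lt_or_ge j m with h5 | h5
    · have := hfp.1 j h5; omega
    · obtain ⟨e, rfl⟩ := Nat.exists_eq_add_of_le h5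
      rw [hadd]; exact hdmin e (by omega)
  · rw [hadd]; exact hdspec
  · rw [hadd]; exact hprev
  · -- time versus levels
    have hdlog : Real.log (T^[d] y : ℕ) < (i - r) * L := by
      have hp : (0 : ℝ) < (T^[d] y : ℕ) := by exact_mod_cast iter_pos hy0 d
      have h5 : ((T^[d] y : ℕ) : ℝ) < 2 ^ (i - r) := by exact_mod_cast hdspec
      have h6 := Real.log_lt_log hp h5
      rwa [Real.log_pow, Nat.cast_sub hri, ← hL] at h6
    have hdδ : η / 2 * i ≤ d := by
      by_contra hcon
      have h5 := lower_pt d hy0 hy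
      rw [← hL] at h5
      have h6 : 0 ≤ (od d y : ℝ) * Real.log 3 := by positivity
      have h7 : (i - 1 - d) * L < (i - r) * L := by linarith
      have h8 : (i : ℝ) - 1 - d < i - r := lt_of_mul_lt_mul_right h7 hL0.le
      nlinarith
    have hdi' : d ≤ i := hdt.trans hti
    have hlow := hlo d hdi' hdδ
    have h9 : (r - 1) * L < d * (mu * (1 + η / 4)) := by linarith
    have hηr : 40 ≤ η * r := by nlinarith
    rw [abs_le]
    constructor
    · -- lower bound
      have b1 : (r - 1) * L * (1 - η / 4) ≤ d * mu := by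
        have c1 : (r - 1) * L * (1 - η / 4) ≤ d * (mu * (1 + η / 4)) * (1 - η / 4) :=
          mul_le_mul_of_nonneg_right h9.le (by linarith)
        have c2 : d * (mu * (1 + η / 4)) * (1 - η / 4) = d * mu * (1 - (η / 4) ^ 2) := by ring
        have c3 : d * mu * (1 - (η / 4) ^ 2) ≤ d * mu * 1 := by
          apply mul_le_mul_of_nonneg_left _ (by positivity)
          nlinarith
        linarith
      have b2 : (r - 1) * L * (1 - η / 4) = r * L - (r * η / 4) * L - L * (1 - η / 4) := by ring
      have b3 : L * (1 - η / 4) ≤ L * 1 := mul_le_mul_of_nonneg_left (by linarith) hL0.le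
      have b4 : L ≤ (3 * (η * r) / 4) * L := by
        have : (1 : ℝ) ≤ 3 * (η * r) / 4 := by linarith
        nlinarith
      nlinarith
    · -- upper bound
      have b1 : mu * d ≤ mu * t := mul_le_mul_of_nonneg_left hdi hμ0.le
      have b2 : mu * t ≤ mu * q + mu := by nlinarith
      have b3 : mu * q ≤ r * L * (1 + η / 2) := by
        have c1 : mu * q * (1 - η / 4) = r * L := by rw [← hqe]; ring
        have c2 : r * L ≤ r * L * (1 + η / 2) * (1 - η / 4) := by
          have : (1 : ℝ) ≤ (1 + η / 2) * (1 - η / 4) := by nlinarith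
          have h5 : 0 ≤ r * L := by positivity
          nlinarith
        have c3 : 0 < 1 - η / 4 := by linarith
        rw [← c1] at c2
        have c4 : mu * q * (1 - η / 4) ≤ (r * L * (1 + η / 2)) * (1 - η / 4) := by
          rw [c1]
          have : (1 : ℝ) ≤ (1 + η / 2) * (1 - η / 4) := by nlinarith
          have h5 : 0 ≤ r * L := by positivity
          nlinarith
        exact le_of_mul_le_mul_right c4 c3
      have b4 : mu ≤ (η * r / 2) * L := by
        have : (20 : ℝ) ≤ η * r / 2 := by linarith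
        nlinarith
      nlinarith
  · intro d' hd'
    have hd'd : (d' : ℝ) ≤ d := by exact_mod_cast hd'
    have hd't : (d' : ℝ) ≤ 5 * (η * i) := by nlinarith
    rw [hadd]
    constructor
    · rw [abs_le]
      constructor
      · -- lower bound
        have b1 : 2 ^ (i - r) ≤ 2 * T^[d'] y := by
          rcases Nat.lt_or_ge d' d with h5 | h5
          · have := hdmin d' h5; omega
          · have : d' = d := le_antisymm hd' h5
            rw [this]; exact hprev
        have b2 : (2 : ℝ) ^ (i - r) ≤ 2 * (T^[d'] y : ℕ) := by exact_mod_cast b1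
        have hp : (0 : ℝ) < (T^[d'] y : ℕ) := by exact_mod_cast iter_pos hy0 d'
        have b3 := Real.log_le_log (by positivity) b2
        rw [Real.log_pow, Real.log_mul (by norm_num) hp.ne', Nat.cast_sub hri, ← hL] at b3
        have b4 : ((r : ℝ) + 1) * L ≤ 3 * η * (i * L) := by
          have : (r : ℝ) + 1 ≤ 3 * (η * i) := by linarith
          calc ((r : ℝ) + 1) * L ≤ 3 * (η * i) * L := mul_le_mul_of_nonneg_right this hL0.le
            _ = _ := by ring
        linarith
      · -- upper bound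
        have hd'i : d' ≤ i := hd'.trans (hdt.trans hti)
        have b1 := upper_pt hd'i hylt hy0
        rw [← hL] at b1
        have b2 : (od d' y : ℝ) ≤ d' := by exact_mod_cast od_le d' y
        have b3 : (od d' y : ℝ) * Real.log 3 ≤ d' * (27 / 17 * L) :=
          mul_le_mul b2 hRL h3.le (by positivity)
        have b4 : (d' : ℝ) * (10 / 17 * L) ≤ 3 * η * (i * L) := by
          have : (d' : ℝ) * (10 / 17) ≤ 3 * (η * i) := by linarith
          calc (d' : ℝ) * (10 / 17 * L) = d' * (10 / 17) * L := by ring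
            _ ≤ 3 * (η * i) * L := mul_le_mul_of_nonneg_right this hL0.le
            _ = _ := by ring
        nlinarith
    · have b1 : mu * d' ≤ 11 / 53 * L * (5 * (η * i)) :=
        mul_le_mul hμ2 hd't (by positivity) (by positivity)
      have : 0 ≤ η * i * L := by positivity
      nlinarith

end Pool.Agent.H319R2.Lln
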