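import Mathlib
import Pool.Agent.H33.G.R_seed8.H319R2.LlnMain

set_option autoImplicit false

/-!
The law of large numbers for the 3x+1 map, down to a power of the logarithm: final form.
-/

namespace Pool.Agent.H319R2.Lln

open Finset Filter Pool.Agent.Helper894.Collatz Pool.Agent.H377R2

/-- the descent of `n` to at most `Y` follows the expected profile up to `ε log n`, and stays at most
`V` -/
def Prof (ε Y V : ℝ) (n : ℕ) : Prop :=
  ∃ m0 : ℕ, ((T^[m0] n : ℕ) : ℝ) ≤ Y ∧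
    ∀ m ≤ m0, |Real.log (T^[m] n : ℕ) - Real.log n + mu * m| ≤ ε * Real.log n ∧
      ((T^[m] n : ℕ) : ℝ) ≤ V

theorem lln (ε A : ℝ) (hε : 0 < ε) (hA : 0 ≤ A) : ∃ B : ℝ, 0 < B ∧ ∀ᶠ x : ℝ in atTop,
    ∀ V : ℝ, x ≤ V →
    ∀ S : Finset ℕ, (∀ n ∈ S, 1 ≤ n ∧ (n : ℝ) ≤ x ∧ ¬ Prof ε (Real.log x ^ B) V n) →
      (S.card : ℝ) ≤ x / Real.log x ^ A + x ^ 2 * Real.log x ^ 4 / V := by
  classical
  have hL0 : 0 < Real.log 2 := Real.log_pos (by norm_num)
  have hL1 : 0.6931 < Real.log 2 := by have := Real.log_two_gt_d9; linarith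
  have h3 : 0 < Real.log 3 := Real.log_pos (by norm_num)
  have hμ : 0 < mu := by have := mu_lower; linarith
  set η : ℝ := min (ε / 8) (1 / 20) with hη
  have hη0 : 0 < η := lt_min (by linarith) (by norm_num)
  have hη1 : η ≤ 1 / 20 := min_le_right _ _
  have hη2 : 8 * η ≤ ε := by have := min_le_left (ε / 8) (1 / 20 : ℝ); linarith
  set ε' : ℝ := mu * η / (4 * Real.log 3) with hε'
  have hε'0 : 0 < ε' := by positivity
  set c : ℝ := 2 * ε' ^ 2 * (η / 2) with hc
  have hc0 : 0 < c := by positivity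
  set B : ℝ := (A + 6) * Real.log 2 / c + 2 with hB
  have hB0 : 0 < B := by positivity
  have hB2 : 2 ≤ B := by
    have : 0 ≤ (A + 6) * Real.log 2 / c := by positivity
    linarith
  have hBc : (A + 6) * Real.log 2 ≤ c * B := by
    have : c * B = (A + 6) * Real.log 2 + 2 * c := by rw [hB]; field_simp
    linarith
  refine ⟨B, hB0, ?_⟩
  -- large x
  have hll : Tendsto (fun x : ℝ => Real.log (Real.log x)) atTop atTop :=
    Real.tendsto_log_atTop.comp Real.tendsto_log_atTop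
  have e1 : ∀ᶠ x : ℝ in atTop, 80 ≤ Real.log x := Real.tendsto_log_atTop.eventually_ge_atTop 80
  have e2 : ∀ᶠ x : ℝ in atTop, 209088 * Real.exp c ≤ Real.log x :=
    Real.tendsto_log_atTop.eventually_ge_atTop _
  have e4 : ∀ᶠ x : ℝ in atTop, 139392 ≤ Real.log x :=
    Real.tendsto_log_atTop.eventually_ge_atTop _
  have e3 : ∀ᶠ x : ℝ in atTop, (40 / η ^ 2 + 1) * Real.log 2 / B ≤ Real.log (Real.log x) :=
    hll.eventually_ge_atTop _
  filter_upwards [e1, e2, e3, eventually_ge_atTop 2, e4] with x hx1 hx2 hx3 hx4 hx5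
  intro V hxV S hS
  set u := Real.log x with hu
  have hx0 : 0 < x := by linarith
  have hu0 : 0 < u := by linarith
  have hlu : 0 < Real.log u := Real.log_pos (by linarith)
  -- k
  obtain ⟨k, hk⟩ : ∃ k, k = Nat.log 2 ⌊x⌋₊ + 1 := ⟨_, rfl⟩
  have hfx : ⌊x⌋₊ ≠ 0 := by
    have : 2 ≤ ⌊x⌋₊ := Nat.le_floor (by exact_mod_cast hx4)
    omega
  have hkx : (2 : ℝ) ^ k ≤ 2 * x := by
    have h1 : 2 ^ (Nat.log 2 ⌊x⌋₊) ≤ ⌊x⌋₊ := Nat.pow_log_le_self 2 hfx
    have h2 : ((2 : ℝ) ^ (Nat.log 2 ⌊x⌋₊)) ≤ ⌊x⌋₊ := by exact_mod_cast h1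
    have h3 := Nat.floor_le hx0.le
    rw [hk, pow_succ]; linarith
  have hxk : ∀ n : ℕ, (n : ℝ) ≤ x → n < 2 ^ k := by
    intro n hn
    rw [hk]
    exact lt_of_le_of_lt (Nat.le_floor hn) (Nat.lt_pow_succ_log_self (by norm_num) _)
  have hku : (k : ℝ) ≤ 2 * u := by
    have h1 : (k : ℝ) * Real.log 2 ≤ Real.log (2 * x) := by
      rw [← Real.log_pow]
      exact Real.log_le_log (by positivity) hkx
    rw [Real.log_mul (by norm_num) hx0.ne', ← hu] at h1
    have h2 := Real.log_two_lt_d9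
    nlinarith
  -- l
  obtain ⟨l, hl⟩ : ∃ l, l = ⌊B * Real.log u / Real.log 2⌋₊ := ⟨_, rfl⟩
  have hl1 : (l : ℝ) ≤ B * Real.log u / Real.log 2 := by rw [hl]; exact Nat.floor_le (by positivity)
  have hl2 : B * Real.log u / Real.log 2 < l + 1 := by rw [hl]; exact Nat.lt_floor_add_one _
  have hl2' : B * Real.log u < (l + 1) * Real.log 2 := by rwa [div_lt_iff₀ hL0] at hl2
  have hlu2 : (2 : ℝ) ^ l ≤ u ^ B := by
    rw [Real.rpow_def_of_pos hu0, ← Real.exp_log (show (0 : ℝ) < 2 ^ l by positivity), Real.log_pow]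
    apply Real.exp_le_exp.2
    rw [le_div_iff₀ hL0] at hl1
    linarith
  have hlbig : u ^ B ≤ 2 * 2 ^ l := by
    rw [Real.rpow_def_of_pos hu0, ← Real.exp_log (show (0 : ℝ) < 2 * 2 ^ l by positivity),
      Real.log_mul (by norm_num) (by positivity), Real.log_pow]
    apply Real.exp_le_exp.2
    linarith
  have hu2 : u ^ 2 ≤ u ^ B := by
    rw [← Real.rpow_natCast u 2]
    exact Real.rpow_le_rpow_of_exponent_le (by linarith) (by exact_mod_cast hB2)
  have hM : 2 * (10 * k) ≤ 2 ^ l := by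
    have : (2 * (10 * k) : ℝ) ≤ 2 ^ l := by nlinarith
    exact_mod_cast this
  have hl40 : 40 ≤ η ^ 2 * l := by
    have a1 : 40 / η ^ 2 + 1 ≤ B * Real.log u / Real.log 2 := by
      rw [div_le_iff₀ hB0] at hx3
      rw [le_div_iff₀ hL0]
      linarith
    have a2 : 40 / η ^ 2 ≤ l := by linarith
    rw [div_le_iff₀ (by positivity)] at a2
    linarith
  have hV0 : 0 < V := by linarith
  -- inclusion
  have hsub : S ⊆ Exc ε' (η / 2) k l (10 * k) ∪ ExcV V k l (10 * k) := by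
    intro n hn
    obtain ⟨h5, h6, h7⟩ := hS n hn
    by_contra hcon
    rw [mem_union, not_or] at hcon
    obtain ⟨hc1, hc2⟩ := hcon
    apply h7
    have hk6 := hxk n h6
    obtain ⟨m0, hm0, hp⟩ := chain hη0 hη1 h5 hk6 hl40 hc1
      (fun m => ((T^[m] n : ℕ) : ℝ) ≤ V) (by
        simp only [Function.iterate_zero, id]
        linarith) (by
        intro i m hli hik hm hfp hy d hd
        by_contra hcon
        apply hc2
        unfold ExcV
        rw [mem_filter, mem_range]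
        refine ⟨hk6, h5, i, hli, hik, m, hm, hfp, ?_⟩
        rw [mem_Big]
        refine ⟨hfp.2, hy, d, hd, ?_⟩
        rw [← Function.iterate_add_apply, add_comm]
        exact not_le.1 hcon)
    refine ⟨m0, ?_, fun m hm => ⟨(hp m hm).1.trans ?_, (hp m hm).2⟩⟩
    · have : ((T^[m0] n : ℕ) : ℝ) ≤ 2 ^ l := by exact_mod_cast hm0.le
      linarith
    · exact mul_le_mul_of_nonneg_right hη2 (Real.log_natCast_nonneg n)
  have hcard := card_Exc ε' (η / 2) hε'0.le (by positivity) k l (10 * k) hM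
  have hcardV := card_ExcV V hV0 k l (10 * k) hM
  have hS2 : (S.card : ℝ) ≤ (Exc ε' (η / 2) k l (10 * k)).card + (ExcV V k l (10 * k)).card := by
    have h5 := (card_le_card hsub).trans
      (card_union_le (Exc ε' (η / 2) k l (10 * k)) (ExcV V k l (10 * k)))
    exact_mod_cast h5
  rw [← hc] at hcard
  push_cast at hcard hcardV
  -- the exponential
  have hexp : Real.exp (-(c * l)) ≤ Real.exp c * u ^ (-(A + 6)) := by
    rw [Real.rpow_def_of_pos hu0, ← Real.exp_add]
    apply Real.exp_le_exp.2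
    have a1 : (A + 6) * Real.log 2 * Real.log u ≤ c * B * Real.log u :=
      mul_le_mul_of_nonneg_right hBc hlu.le
    have a2 : c * (B * Real.log u) ≤ c * ((l + 1) * Real.log 2) :=
      mul_le_mul_of_nonneg_left hl2'.le hc0.le
    have a3 : (A + 6) * Real.log u * Real.log 2 ≤ c * (l + 1) * Real.log 2 := by linarith
    have a4 : (A + 6) * Real.log u ≤ c * (l + 1) := le_of_mul_le_mul_right a3 hL0
    linarith
  have hk1 : ((k : ℝ) + 1) ^ 2 ≤ 9 * u ^ 2 := by
    have : (k : ℝ) + 1 ≤ 3 * u := by linarith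
    calc ((k : ℝ) + 1) ^ 2 ≤ (3 * u) ^ 2 := pow_le_pow_left₀ (by positivity) this 2
      _ = _ := by ring
  have hk2 : (10 * (k : ℝ) + 2) ^ 2 ≤ 484 * u ^ 2 := by
    have : 10 * (k : ℝ) + 2 ≤ 22 * u := by linarith
    calc (10 * (k : ℝ) + 2) ^ 2 ≤ (22 * u) ^ 2 := pow_le_pow_left₀ (by positivity) this 2
      _ = _ := by ring
  have hpow : u ^ (-(A + 6)) * u ^ 5 = u ^ (-A) * u⁻¹ := by
    rw [← Real.rpow_natCast u 5, ← Real.rpow_neg_one, ← Real.rpow_add hu0, ← Real.rpow_add hu0]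
    congr 1; push_cast; ring
  have hAe : x / u ^ A = x * u ^ (-A) := by rw [Real.rpow_neg hu0.le, div_eq_mul_inv]
  rw [hAe]
  have hup : 0 < u ^ (-A) := Real.rpow_pos_of_pos hu0 _
  have hup6 : 0 < u ^ (-(A + 6)) := Real.rpow_pos_of_pos hu0 _
  have hup : 0 < x * u ^ (-A) := by positivity
  have hinv : u⁻¹ ≤ 1 := inv_le_one_of_one_le₀ (by linarith)
  have hinv0 : 0 < u⁻¹ := by positivity
  have hfirst : ((Exc ε' (η / 2) k l (10 * k)).card : ℝ) ≤ 1 / 3 * (x * u ^ (-A)) := by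
    refine hcard.trans ?_
    calc 8 * ((k : ℝ) + 1) ^ 2 * (10 * k + 2) ^ 2 * 2 ^ k * Real.exp (-(c * l))
        ≤ 8 * (9 * u ^ 2) * (484 * u ^ 2) * (2 * x) * (Real.exp c * u ^ (-(A + 6))) := by
          apply mul_le_mul _ hexp (Real.exp_pos _).le (by positivity)
          apply mul_le_mul _ hkx (by positivity) (by positivity)
          apply mul_le_mul _ hk2 (by positivity) (by positivity)
          exact mul_le_mul_of_nonneg_left hk1 (by norm_num)
      _ = 69696 * Real.exp c * x * u⁻¹ * (u ^ (-(A + 6)) * u ^ 5) := by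
          field_simp; ring
      _ = 69696 * Real.exp c * u⁻¹ * u⁻¹ * (x * u ^ (-A)) := by rw [hpow]; ring
      _ ≤ 1 / 3 * (x * u ^ (-A)) := by
          apply mul_le_mul_of_nonneg_right _ hup.le
          have a1 : 209088 * Real.exp c * u⁻¹ ≤ 1 := by
            rw [← div_eq_mul_inv, div_le_one hu0]; exact hx2
          nlinarith
  have hsecond : ((ExcV V k l (10 * k)).card : ℝ) ≤ x ^ 2 * u ^ 4 / V := by
    refine hcardV.trans ?_
    have h4k : (4 : ℝ) ^ k ≤ 4 * x ^ 2 := by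
      calc (4 : ℝ) ^ k = (2 ^ k) ^ 2 := by rw [← pow_mul, mul_comm, pow_mul]; norm_num
        _ ≤ (2 * x) ^ 2 := pow_le_pow_left₀ (by positivity) hkx 2
        _ = _ := by ring
    have hk3 : (k : ℝ) + 1 ≤ 3 * u := by linarith
    calc 8 * ((k : ℝ) + 1) * (10 * k + 2) ^ 2 * 4 ^ k / V
        ≤ 8 * (3 * u) * (484 * u ^ 2) * (4 * x ^ 2) / V := by
          apply div_le_div_of_nonneg_right _ hV0.le
          apply mul_le_mul _ h4k (by positivity) (by positivity)
          apply mul_le_mul _ hk2 (by positivity) (by positivity)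
          exact mul_le_mul_of_nonneg_left hk3 (by norm_num)
      _ ≤ x ^ 2 * u ^ 4 / V := by
          apply div_le_div_of_nonneg_right _ hV0.le
          have h6 : 8 * (3 * u) * (484 * u ^ 2) * (4 * x ^ 2) = x ^ 2 * u ^ 3 * 46464 := by ring
          have h7 : x ^ 2 * u ^ 4 = x ^ 2 * u ^ 3 * u := by ring
          rw [h6, h7]
          apply mul_le_mul_of_nonneg_left _ (by positivity)
          linarith
  linarith

end Pool.Agent.H319R2.Lln
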