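import Mathlib
import Pool.Agent.H33.G.R_seed8.H319R2.Rigid

set_option autoImplicit false

/-!
Whole orbits: counting and asymptotics, and the transfer to the unaccelerated map.
-/

namespace Pool.Agent.H319R2

open Finset

/-- every finite subset of an orbit lies on an injective initial piece of it -/
theorem finite_subset_path (x : ℤ) (F : Finset ℤ) (hF : ∀ y ∈ F, ∃ i, T^[i] x = y) :
    ∃ r : ℕ, Set.InjOn (fun i => T^[i] x) (Set.Iio r) ∧ ∀ y ∈ F, ∃ i < r, T^[i] x = y := by
  classical
  by_cases hinj : Function.Injective (fun i => T^[i] x)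
  · choose! f hf using hF
    refine ⟨F.sup f + 1, hinj.injOn, fun y hy => ⟨f y, Nat.lt_succ_of_le (le_sup hy), hf y hy⟩⟩
  · -- first repetition
    have hex : ∃ r : ℕ, ∃ i < r, T^[i] x = T^[r] x := by
      unfold Function.Injective at hinj
      push Not at hinj
      obtain ⟨i, j, hij, hne⟩ := hinj
      rcases lt_or_gt_of_ne hne with h | h
      · exact ⟨j, i, h, hij⟩
      · exact ⟨i, j, h, hij.symm⟩
    set r := Nat.find hex with hr
    obtain ⟨i0, hi0, hrep⟩ := Nat.find_spec hex
    refine ⟨r, ?_, ?_⟩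
    · intro i hi j hj hij
      have hi : i < r := hi
      have hj : j < r := hj
      by_contra hne
      rcases lt_or_gt_of_ne hne with h | h
      · exact Nat.find_min hex hj ⟨i, h, hij⟩
      · exact Nat.find_min hex hi ⟨j, h, hij.symm⟩
    · have hall : ∀ n : ℕ, ∃ i < r, T^[i] x = T^[n] x := by
        intro n
        induction n with
        | zero => exact ⟨0, by omega, rfl⟩
        | succ n ih =>
          obtain ⟨i, hi, he⟩ := ih
          rcases Nat.lt_or_ge (i + 1) r with h | h
          · exact ⟨i + 1, h, by rw [Function.iterate_succ_apply', Function.iterate_succ_apply', he]⟩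
          · have : i + 1 = r := by omega
            refine ⟨i0, hi0, ?_⟩
            rw [hrep, ← hr, ← this, Function.iterate_succ_apply', Function.iterate_succ_apply', he]
      intro y hy
      obtain ⟨n, hn⟩ := hF y hy
      obtain ⟨i, hi, he⟩ := hall n
      exact ⟨i, hi, by rw [he, hn]⟩

/-- **Uniform sparsity of orbits.** -/
theorem orbit_sparse (η : ℝ) (hη : beta < η) : ∃ C : ℝ, 0 < C ∧ ∀ (x : ℤ) (X : ℝ), 1 ≤ X →
    ∀ F : Finset ℤ, (∀ y ∈ F, (∃ i, T^[i] x = y) ∧ |(y : ℝ)| ≤ X) → (F.card : ℝ) ≤ C * X ^ η := by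
  obtain ⟨C, hC0, hC⟩ := sparse η hη
  refine ⟨C, hC0, ?_⟩
  intro x X hX F hF
  obtain ⟨r, hinj, hr⟩ := finite_subset_path x F (fun y hy => (hF y hy).1)
  apply hC _ (tame_path x r hinj) X hX F
  intro y hy
  obtain ⟨i, hi, he⟩ := hr y hy
  exact ⟨⟨i, hi, he⟩, (hF y hy).2⟩

end Pool.Agent.H319R2
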